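import Mathlib

/-!
Strong starters in `ZMod n` and the cyclic (patterned) Room squares they give.
-/

namespace Pool.Agent.Helper19_Horton

/-- `HasStrongStarter n` : there is an involution `φ` of `ZMod n` fixing only `0`, with
`x - φ x` injective and with `x + φ x` determining the pair `{x, φ x}`. -/
def HasStrongStarter (n : ℕ) : Prop :=
  ∃ φ : ZMod n → ZMod n, φ 0 = 0 ∧ (∀ x, φ (φ x) = x) ∧ (∀ x, x ≠ 0 → φ x ≠ x) ∧
    Function.Injective (fun x => x - φ x) ∧
    (∀ x z, x + φ x = z + φ z → z = x ∨ z = φ x)

theorem hasStrongStarter_of_index {n : ℕ} [NeZero n] {ι : Type} [Fintype ι]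
    (x y : ι → ZMod n)
    (hcard : 2 * Fintype.card ι + 1 = n)
    (hx0 : ∀ i, x i ≠ 0) (hy0 : ∀ i, y i ≠ 0)
    (hxx : Function.Injective x) (hyy : Function.Injective y) (hxy : ∀ i j, x i ≠ y j)
    (hd : ∀ i j, x i - y i = x j - y j → i = j) (hd' : ∀ i j, x i - y i ≠ y j - x j)
    (hs : ∀ i j, x i + y i = x j + y j → i = j) (hs0 : ∀ i, x i + y i ≠ 0) :
    HasStrongStarter n := by
  classical
  -- the bijection
  let e : Option (ι ⊕ ι) → ZMod n := fun o => match o with
    | none => 0
    | some (Sum.inl i) => x i
    | some (Sum.inr i) => y i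
  have he : Function.Injective e := by
    intro a b hab
    rcases a with _ | (a | a) <;> rcases b with _ | (b | b) <;> simp only [e] at hab
    · rfl
    · exact absurd hab.symm (hx0 b)
    · exact absurd hab.symm (hy0 b)
    · exact absurd hab (hx0 a)
    · rw [hxx hab]
    · exact absurd hab (hxy a b)
    · exact absurd hab (hy0 a)
    · exact absurd hab.symm (hxy b a)
    · rw [hyy hab]
  have hbij : Function.Bijective e := by
    rw [Fintype.bijective_iff_injective_and_card]
    refine ⟨he, ?_⟩
    rw [Fintype.card_option, Fintype.card_sum, ZMod.card]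
    omega
  let E := Equiv.ofBijective e hbij
  let sw : Option (ι ⊕ ι) → Option (ι ⊕ ι) := fun o => o.map Sum.swap
  have hsw : ∀ o, sw (sw o) = o := by
    intro o; rcases o with _ | (a | a) <;> rfl
  have hE : ∀ o, E o = e o := fun o => rfl
  refine ⟨fun z => E (sw (E.symm z)), ?_, ?_, ?_, ?_, ?_⟩
  · have h0 : E.symm 0 = none := by
      rw [Equiv.symm_apply_eq]; rfl
    show E (sw (E.symm 0)) = 0
    rw [h0]; rfl
  · intro z
    show E (sw (E.symm (E (sw (E.symm z))))) = z
    rw [Equiv.symm_apply_apply, hsw, Equiv.apply_symm_apply]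
  · intro z hz h
    have h' : E (sw (E.symm z)) = z := h
    obtain ⟨o, rfl⟩ := E.surjective z
    rw [Equiv.symm_apply_apply] at h'
    have h2 := E.injective h'
    rcases o with _ | (a | a)
    · exact hz rfl
    · simp [sw] at h2
    · simp [sw] at h2
  · intro z w hzw
    have h : z - E (sw (E.symm z)) = w - E (sw (E.symm w)) := hzw
    obtain ⟨a, rfl⟩ := E.surjective z
    obtain ⟨b, rfl⟩ := E.surjective w
    rw [Equiv.symm_apply_apply, Equiv.symm_apply_apply] at h
    rcases a with _ | (a | a) <;> rcases b with _ | (b | b) <;>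
      simp only [hE, sw, e, Option.map_none, Option.map_some, Sum.swap_inl, Sum.swap_inr] at h ⊢
    · exact absurd (sub_eq_zero.mp (by rw [← h]; simp)) (hxy b b)
    · exact absurd (sub_eq_zero.mp (by rw [← h]; simp)).symm (hxy b b)
    · exact absurd (sub_eq_zero.mp (by rw [h]; simp)) (hxy a a)
    · rw [hd a b h]
    · exact absurd h (hd' a b)
    · exact absurd (sub_eq_zero.mp (by rw [h]; simp)).symm (hxy a a)
    · exact absurd h.symm (hd' b a)
    · have : x a - y a = x b - y b := by
        have := congrArg Neg.neg h
        simpa using this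
      rw [hd a b this]
  · intro z w hzw
    have h : z + E (sw (E.symm z)) = w + E (sw (E.symm w)) := hzw
    show w = z ∨ w = E (sw (E.symm z))
    obtain ⟨a, rfl⟩ := E.surjective z
    obtain ⟨b, rfl⟩ := E.surjective w
    rw [Equiv.symm_apply_apply, Equiv.symm_apply_apply] at h
    rw [Equiv.symm_apply_apply]
    rcases a with _ | (a | a) <;> rcases b with _ | (b | b) <;>
      simp only [hE, sw, e, Option.map_none, Option.map_some, Sum.swap_inl, Sum.swap_inr] at h ⊢
    · left; trivial
    · exact absurd (by rw [← h]; simp) (hs0 b)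
    · exact absurd (by rw [add_comm, ← h]; simp) (hs0 b)
    · exact absurd (by rw [h]; simp) (hs0 a)
    · left; rw [hs a b h]
    · right; rw [hs a b (by rw [h, add_comm])]
    · exact absurd (by rw [add_comm, h]; simp) (hs0 a)
    · right; rw [hs a b (by rw [add_comm, h])]
    · left; rw [hs a b (by rw [add_comm (x a), h, add_comm])]

theorem hasStrongStarter_of_int {n : ℕ} {ι : Type} [Fintype ι]
    (x y : ι → ℤ)
    (hcard : 2 * Fintype.card ι + 1 = n)
    (hx : ∀ i, 0 < x i) (hlt : ∀ i, x i < y i) (hy : ∀ i, y i < n)
    (hxx : ∀ i j, x i = x j → i = j) (hyy : ∀ i j, y i = y j → i = j)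
    (hxy : ∀ i j, x i ≠ y j)
    (hd : ∀ i j, y i - x i = y j - x j → i = j)
    (hd' : ∀ i j, (y i - x i) + (y j - x j) ≠ n)
    (hs : ∀ i j, x i + y i = x j + y j → i = j)
    (hs' : ∀ i j, x i + y i ≠ x j + y j + n) (hs0 : ∀ i, x i + y i ≠ n) :
    HasStrongStarter n := by
  have hn0 : n ≠ 0 := by omega
  haveI : NeZero n := ⟨hn0⟩
  have key : ∀ a b : ℤ, ((a : ZMod n) = (b : ZMod n)) → ∃ k : ℤ, a - b = n * k := by
    intro a b h
    have h1 := (ZMod.intCast_eq_intCast_iff_dvd_sub b a n).mp h.symm
    exact h1
  have small : ∀ k : ℤ, ∀ d : ℤ, d = n * k → -(n : ℤ) < d → d < n → d = 0 := by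
    intro k d hd1 h1 h2
    have : k = 0 := by
      by_contra hk
      rcases lt_or_gt_of_ne hk with h | h
      · have : (n : ℤ) * k ≤ n * (-1) := by
          apply mul_le_mul_of_nonneg_left (by omega) (by omega)
        omega
      · have : (n : ℤ) * 1 ≤ n * k := by
          apply mul_le_mul_of_nonneg_left (by omega) (by omega)
        omega
    subst this; simpa using hd1
  have small2 : ∀ k : ℤ, ∀ d : ℤ, d = n * k → -(2 * n : ℤ) < d → d < 2 * n →
      d = 0 ∨ d = n ∨ d = -n := by
    intro k d hd1 h1 h2
    have hk1 : k < 2 := by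
      by_contra hk
      have : (n : ℤ) * 2 ≤ n * k := by
        apply mul_le_mul_of_nonneg_left (by omega) (by omega)
      omega
    have hk2 : -2 < k := by
      by_contra hk
      have : (n : ℤ) * k ≤ n * (-2) := by
        apply mul_le_mul_of_nonneg_left (by omega) (by omega)
      omega
    have : k = 0 ∨ k = 1 ∨ k = -1 := by omega
    rcases this with rfl | rfl | rfl
    · left; simpa using hd1
    · right; left; simpa using hd1
    · right; right; rw [hd1]; ring
  apply hasStrongStarter_of_index (n := n) (fun i => ((x i : ℤ) : ZMod n))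
    (fun i => ((y i : ℤ) : ZMod n)) hcard
  · intro i h
    obtain ⟨k, hk⟩ := key (x i) 0 (by simpa using h)
    have := small k _ hk (by have := hx i; omega) (by have := hlt i; have := hy i; omega)
    have := hx i; omega
  · intro i h
    obtain ⟨k, hk⟩ := key (y i) 0 (by simpa using h)
    have := small k _ hk (by have := hx i; have := hlt i; omega) (by have := hy i; omega)
    have := hx i; have := hlt i; omega
  · intro i j h
    obtain ⟨k, hk⟩ := key (x i) (x j) h
    have h1 := hx i; have h2 := hx j; have h3 := hlt i; have h4 := hlt j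
    have h5 := hy i; have h6 := hy j
    have := small k _ hk (by omega) (by omega)
    exact hxx i j (by omega)
  · intro i j h
    obtain ⟨k, hk⟩ := key (y i) (y j) h
    have h1 := hx i; have h2 := hx j; have h3 := hlt i; have h4 := hlt j
    have h5 := hy i; have h6 := hy j
    have := small k _ hk (by omega) (by omega)
    exact hyy i j (by omega)
  · intro i j h
    obtain ⟨k, hk⟩ := key (x i) (y j) h
    have h1 := hx i; have h2 := hx j; have h3 := hlt i; have h4 := hlt j
    have h5 := hy i; have h6 := hy j
    have := small k _ hk (by omega) (by omega)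
    exact hxy i j (by omega)
  · intro i j h
    obtain ⟨k, hk⟩ := key (x i - y i) (x j - y j) (by push_cast; exact h)
    have h1 := hx i; have h2 := hx j; have h3 := hlt i; have h4 := hlt j
    have h5 := hy i; have h6 := hy j
    have := small k _ hk (by omega) (by omega)
    exact hd i j (by omega)
  · intro i j h
    obtain ⟨k, hk⟩ := key (x i - y i) (y j - x j) (by push_cast; exact h)
    have h1 := hx i; have h2 := hx j; have h3 := hlt i; have h4 := hlt j
    have h5 := hy i; have h6 := hy j
    have h7 := small2 k _ hk (by omega) (by omega)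
    have h8 := hd' i j
    omega
  · intro i j h
    obtain ⟨k, hk⟩ := key (x i + y i) (x j + y j) (by push_cast; exact h)
    have h1 := hx i; have h2 := hx j; have h3 := hlt i; have h4 := hlt j
    have h5 := hy i; have h6 := hy j
    have h7 := small2 k _ hk (by omega) (by omega)
    have h8 := hs' i j
    have h9 := hs' j i
    exact hs i j (by omega)
  · intro i h
    obtain ⟨k, hk⟩ := key (x i + y i) 0 (by push_cast; exact h)
    have h1 := hx i; have h3 := hlt i
    have h5 := hy i
    have h7 := small2 k _ hk (by omega) (by omega)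
    have h8 := hs0 i
    omega

end Pool.Agent.Helper19_Horton
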