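import Pool.Agent.Helper19_Horton.Template

/-!
Families of strong starters, part 1.
-/

namespace Pool.Agent.Helper19_Horton

def fam101 : List Item := [
  ⟨6, 10, 1, 15, 21, -2, 3, 3⟩,
  ⟨24, 41, 1, 33, 54, -2, 3, 3⟩,
  ⟨39, 61, -2, 39, 67, 1, 3, 4⟩,
  ⟨42, 72, 2, 54, 93, 1, 3, 3⟩,
  ⟨42, 73, 2, 57, 97, 1, 3, 2⟩,
  ⟨15, 26, 1, 39, 64, -2, 3, 4⟩,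
  ⟨15, 24, -2, 51, 86, 1, 3, 3⟩,
  ⟨0, 2, 1, 24, 39, -2, 3, 3⟩,
  ⟨3, 6, 1, 27, 47, 2, 3, 3⟩,
  ⟨18, 32, 2, 48, 82, 1, 3, 3⟩,
  ⟨9, 13, 0, 60, 100, 0, 0, 1⟩,
  ⟨9, 14, 0, 54, 90, 0, 0, 1⟩,
  ⟨9, 15, 0, 42, 71, 0, 0, 1⟩,
  ⟨9, 16, 0, 18, 33, 0, 0, 1⟩,
  ⟨9, 18, 0, 54, 89, 0, 0, 1⟩,
  ⟨15, 23, 0, 27, 45, 0, 0, 1⟩,
  ⟨15, 25, 0, 48, 80, 0, 0, 1⟩,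
  ⟨18, 30, 0, 27, 46, 0, 0, 1⟩,
  ⟨18, 31, 0, 51, 85, 0, 0, 1⟩,
  ⟨24, 38, 0, 39, 65, 0, 0, 1⟩,
  ⟨24, 40, 0, 39, 66, 0, 0, 1⟩,
  ⟨27, 44, 0, 27, 48, 0, 0, 1⟩,
  ⟨6, 9, 0, 33, 53, 0, 0, 1⟩,
  ⟨33, 56, 0, 57, 96, 0, 0, 1⟩,
  ⟨39, 63, 0, 48, 81, 0, 0, 1⟩,
  ⟨48, 77, 0, 48, 79, 0, 0, 1⟩,
  ⟨3, 5, 0, 48, 78, 0, 0, 1⟩,
  ⟨54, 91, 0, 54, 92, 0, 0, 1⟩,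
  ⟨0, 1, 0, 60, 99, 0, 0, 1⟩]

theorem fam101_ok : check 60 101 fam101 = true := by
  decide +kernel

def fam119 : List Item := [
  ⟨30, 57, -2, 30, 61, 1, 3, 3⟩,
  ⟨36, 74, 1, 45, 86, -2, 3, 4⟩,
  ⟨45, 92, 1, 54, 106, -2, 3, 4⟩,
  ⟨6, 18, 2, 18, 39, 1, 3, 4⟩,
  ⟨6, 19, 2, 54, 109, 1, 3, 3⟩,
  ⟨12, 30, 2, 57, 115, 1, 3, 2⟩,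
  ⟨12, 27, 2, 33, 67, 1, 3, 4⟩,
  ⟨3, 8, 1, 39, 81, 2, 3, 3⟩,
  ⟨0, 2, 1, 24, 50, 2, 3, 4⟩,
  ⟨21, 45, 1, 48, 99, 2, 3, 4⟩,
  ⟨24, 51, 0, 33, 64, 0, 0, 1⟩,
  ⟨33, 65, 0, 60, 118, 0, 0, 1⟩,
  ⟨3, 7, 0, 33, 66, 0, 0, 1⟩,
  ⟨36, 71, 0, 48, 97, 0, 0, 1⟩,
  ⟨24, 49, 0, 36, 72, 0, 0, 1⟩,
  ⟨36, 73, 0, 57, 114, 0, 0, 1⟩,
  ⟨3, 6, 0, 39, 78, 0, 0, 1⟩,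
  ⟨6, 12, 0, 39, 79, 0, 0, 1⟩,
  ⟨0, 1, 0, 45, 87, 0, 0, 1⟩,
  ⟨6, 11, 0, 45, 88, 0, 0, 1⟩,
  ⟨45, 89, 0, 57, 113, 0, 0, 1⟩,
  ⟨6, 14, 0, 45, 90, 0, 0, 1⟩,
  ⟨45, 91, 0, 54, 108, 0, 0, 1⟩,
  ⟨30, 60, 0, 48, 96, 0, 0, 1⟩,
  ⟨18, 37, 0, 48, 98, 0, 0, 1⟩,
  ⟨6, 15, 0, 54, 107, 0, 0, 1⟩,
  ⟨12, 25, 0, 57, 112, 0, 0, 1⟩,
  ⟨12, 26, 0, 60, 117, 0, 0, 1⟩,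
  ⟨6, 13, 0, 18, 35, 0, 0, 1⟩,
  ⟨6, 16, 0, 6, 17, 0, 0, 1⟩,
  ⟨12, 28, 0, 21, 44, 0, 0, 1⟩,
  ⟨18, 34, 0, 30, 59, 0, 0, 1⟩,
  ⟨18, 36, 0, 18, 38, 0, 0, 1⟩,
  ⟨21, 43, 0, 30, 58, 0, 0, 1⟩]

theorem fam119_ok : check 60 119 fam119 = true := by
  decide +kernel

def fam121 : List Item := [
  ⟨9, 17, -2, 9, 22, 1, 3, 3⟩,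
  ⟨18, 37, 1, 27, 50, -2, 3, 3⟩,
  ⟨48, 91, -2, 48, 100, 1, 3, 3⟩,
  ⟨3, 10, 2, 54, 112, 1, 3, 3⟩,
  ⟨27, 57, 1, 48, 96, -2, 3, 4⟩,
  ⟨18, 31, -2, 30, 63, 1, 3, 4⟩,
  ⟨39, 77, -2, 51, 105, 1, 3, 3⟩,
  ⟨18, 34, -2, 39, 80, 1, 3, 4⟩,
  ⟨27, 51, -2, 57, 116, 1, 3, 4⟩,
  ⟨0, 2, 1, 39, 78, -2, 3, 4⟩,
  ⟨9, 19, 0, 48, 98, 0, 0, 1⟩,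
  ⟨9, 20, 0, 21, 43, 0, 0, 1⟩,
  ⟨9, 21, 0, 18, 35, 0, 0, 1⟩,
  ⟨3, 9, 0, 12, 26, 0, 0, 1⟩,
  ⟨18, 33, 0, 48, 97, 0, 0, 1⟩,
  ⟨18, 36, 0, 48, 95, 0, 0, 1⟩,
  ⟨21, 40, 0, 33, 69, 0, 0, 1⟩,
  ⟨0, 1, 0, 21, 41, 0, 0, 1⟩,
  ⟨21, 42, 0, 42, 85, 0, 0, 1⟩,
  ⟨9, 18, 0, 21, 44, 0, 0, 1⟩,
  ⟨27, 52, 0, 27, 56, 0, 0, 1⟩,
  ⟨27, 53, 0, 27, 54, 0, 0, 1⟩,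
  ⟨27, 55, 0, 57, 115, 0, 0, 1⟩,
  ⟨30, 61, 0, 42, 88, 0, 0, 1⟩,
  ⟨30, 62, 0, 42, 84, 0, 0, 1⟩,
  ⟨33, 67, 0, 54, 111, 0, 0, 1⟩,
  ⟨33, 68, 0, 33, 70, 0, 0, 1⟩,
  ⟨33, 71, 0, 54, 108, 0, 0, 1⟩,
  ⟨9, 16, 0, 39, 79, 0, 0, 1⟩,
  ⟨42, 86, 0, 54, 110, 0, 0, 1⟩,
  ⟨48, 93, 0, 48, 99, 0, 0, 1⟩,
  ⟨3, 7, 0, 51, 103, 0, 0, 1⟩,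
  ⟨51, 104, 0, 60, 120, 0, 0, 1⟩,
  ⟨3, 6, 0, 54, 109, 0, 0, 1⟩,
  ⟨3, 8, 0, 3, 11, 0, 0, 1⟩]

theorem fam121_ok : check 60 121 fam121 = true := by
  decide +kernel

def fam123 : List Item := [
  ⟨33, 66, -2, 33, 70, 1, 3, 3⟩,
  ⟨54, 107, -2, 54, 113, 1, 3, 3⟩,
  ⟨0, 3, 1, 9, 17, -2, 3, 3⟩,
  ⟨9, 20, 1, 18, 39, 2, 3, 5⟩,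
  ⟨36, 75, 1, 48, 100, 2, 3, 5⟩,
  ⟨27, 59, 2, 45, 94, 1, 3, 5⟩,
  ⟨3, 12, 2, 24, 51, 1, 3, 3⟩,
  ⟨18, 40, 2, 57, 118, 1, 3, 4⟩,
  ⟨12, 29, 2, 39, 82, 1, 3, 3⟩,
  ⟨12, 28, 2, 42, 88, 1, 3, 3⟩,
  ⟨33, 68, 0, 54, 109, 0, 0, 1⟩,
  ⟨3, 8, 0, 33, 69, 0, 0, 1⟩,
  ⟨27, 60, 0, 36, 73, 0, 0, 1⟩,
  ⟨36, 74, 0, 45, 92, 0, 0, 1⟩,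
  ⟨18, 38, 0, 39, 80, 0, 0, 1⟩,
  ⟨12, 27, 0, 39, 81, 0, 0, 1⟩,
  ⟨9, 19, 0, 42, 85, 0, 0, 1⟩,
  ⟨3, 7, 0, 42, 86, 0, 0, 1⟩,
  ⟨27, 57, 0, 42, 87, 0, 0, 1⟩,
  ⟨18, 35, 0, 45, 91, 0, 0, 1⟩,
  ⟨45, 93, 0, 54, 110, 0, 0, 1⟩,
  ⟨24, 49, 0, 48, 99, 0, 0, 1⟩,
  ⟨48, 101, 0, 57, 116, 0, 0, 1⟩,
  ⟨54, 111, 0, 54, 112, 0, 0, 1⟩,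
  ⟨18, 37, 0, 57, 117, 0, 0, 1⟩,
  ⟨24, 48, 0, 60, 122, 0, 0, 1⟩,
  ⟨0, 1, 0, 27, 56, 0, 0, 1⟩,
  ⟨0, 2, 0, 12, 26, 0, 0, 1⟩,
  ⟨3, 6, 0, 3, 11, 0, 0, 1⟩,
  ⟨3, 9, 0, 12, 25, 0, 0, 1⟩,
  ⟨3, 10, 0, 24, 50, 0, 0, 1⟩,
  ⟨9, 18, 0, 27, 54, 0, 0, 1⟩,
  ⟨18, 34, 0, 18, 36, 0, 0, 1⟩,
  ⟨27, 55, 0, 27, 58, 0, 0, 1⟩]

theorem fam123_ok : check 60 123 fam123 = true := by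
  decide +kernel

def fam125 : List Item := [
  ⟨39, 84, 1, 48, 98, -2, 3, 5⟩,
  ⟨24, 48, -2, 24, 54, 1, 3, 4⟩,
  ⟨33, 68, -2, 33, 72, 1, 3, 5⟩,
  ⟨0, 2, 2, 51, 109, 1, 3, 5⟩,
  ⟨0, 5, 2, 15, 34, 1, 3, 5⟩,
  ⟨12, 28, 1, 54, 118, 2, 3, 3⟩,
  ⟨36, 78, 1, 54, 117, 2, 3, 3⟩,
  ⟨6, 17, 1, 27, 61, 2, 3, 4⟩,
  ⟨9, 23, 1, 42, 95, 2, 3, 3⟩,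
  ⟨18, 41, 2, 48, 103, 1, 3, 5⟩,
  ⟨27, 59, 0, 39, 83, 0, 0, 1⟩,
  ⟨0, 1, 0, 42, 89, 0, 0, 1⟩,
  ⟨9, 21, 0, 42, 91, 0, 0, 1⟩,
  ⟨6, 16, 0, 42, 93, 0, 0, 1⟩,
  ⟨24, 51, 0, 48, 100, 0, 0, 1⟩,
  ⟨6, 12, 0, 48, 101, 0, 0, 1⟩,
  ⟨24, 52, 0, 48, 102, 0, 0, 1⟩,
  ⟨18, 40, 0, 51, 108, 0, 0, 1⟩,
  ⟨39, 82, 0, 54, 114, 0, 0, 1⟩,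
  ⟨36, 77, 0, 54, 115, 0, 0, 1⟩,
  ⟨6, 14, 0, 54, 116, 0, 0, 1⟩,
  ⟨39, 81, 0, 60, 123, 0, 0, 1⟩,
  ⟨33, 70, 0, 60, 124, 0, 0, 1⟩,
  ⟨0, 3, 0, 15, 33, 0, 0, 1⟩,
  ⟨6, 15, 0, 33, 71, 0, 0, 1⟩,
  ⟨9, 22, 0, 18, 39, 0, 0, 1⟩,
  ⟨12, 26, 0, 33, 69, 0, 0, 1⟩,
  ⟨12, 27, 0, 27, 58, 0, 0, 1⟩,
  ⟨15, 31, 0, 15, 32, 0, 0, 1⟩,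
  ⟨24, 50, 0, 24, 53, 0, 0, 1⟩]

theorem fam125_ok : check 60 125 fam125 = true := by
  decide +kernel

end Pool.Agent.Helper19_Horton
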