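import Pool.Agent.Helper19_Horton.Template

/-!
Families of strong starters, part 2.
-/

namespace Pool.Agent.Helper19_Horton

def fam129 : List Item := [
  ⟨6, 15, 1, 15, 31, -2, 3, 5⟩,
  ⟨15, 33, 1, 24, 47, -2, 3, 3⟩,
  ⟨0, 2, 1, 60, 125, -2, 3, 3⟩,
  ⟨36, 80, 2, 48, 106, 1, 3, 5⟩,
  ⟨24, 53, 1, 36, 83, 2, 3, 3⟩,
  ⟨27, 62, 1, 42, 98, 2, 3, 3⟩,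
  ⟨3, 8, 1, 42, 91, 2, 3, 3⟩,
  ⟨9, 24, 2, 33, 74, 1, 3, 4⟩,
  ⟨30, 66, 1, 54, 122, 2, 3, 3⟩,
  ⟨18, 42, 2, 51, 111, 1, 3, 5⟩,
  ⟨6, 14, 0, 18, 41, 0, 0, 1⟩,
  ⟨9, 20, 0, 60, 128, 0, 0, 1⟩,
  ⟨9, 21, 0, 33, 73, 0, 0, 1⟩,
  ⟨9, 22, 0, 54, 116, 0, 0, 1⟩,
  ⟨15, 32, 0, 27, 61, 0, 0, 1⟩,
  ⟨18, 36, 0, 33, 70, 0, 0, 1⟩,
  ⟨18, 37, 0, 60, 127, 0, 0, 1⟩,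
  ⟨18, 38, 0, 27, 58, 0, 0, 1⟩,
  ⟨18, 39, 0, 36, 81, 0, 0, 1⟩,
  ⟨18, 40, 0, 54, 118, 0, 0, 1⟩,
  ⟨24, 49, 0, 48, 103, 0, 0, 1⟩,
  ⟨24, 51, 0, 36, 79, 0, 0, 1⟩,
  ⟨24, 52, 0, 33, 69, 0, 0, 1⟩,
  ⟨27, 56, 0, 27, 57, 0, 0, 1⟩,
  ⟨27, 59, 0, 36, 78, 0, 0, 1⟩,
  ⟨3, 7, 0, 27, 60, 0, 0, 1⟩,
  ⟨30, 65, 0, 54, 120, 0, 0, 1⟩,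
  ⟨6, 12, 0, 33, 71, 0, 0, 1⟩,
  ⟨33, 72, 0, 48, 105, 0, 0, 1⟩,
  ⟨42, 89, 0, 42, 92, 0, 0, 1⟩,
  ⟨0, 1, 0, 42, 90, 0, 0, 1⟩,
  ⟨42, 94, 0, 42, 96, 0, 0, 1⟩,
  ⟨6, 11, 0, 48, 97, 0, 0, 1⟩,
  ⟨48, 99, 0, 48, 104, 0, 0, 1⟩,
  ⟨6, 13, 0, 48, 101, 0, 0, 1⟩,
  ⟨3, 6, 0, 54, 117, 0, 0, 1⟩,
  ⟨3, 5, 0, 54, 119, 0, 0, 1⟩]

theorem fam129_ok : check 60 129 fam129 = true := by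
  decide +kernel

def fam131 : List Item := [
  ⟨6, 9, -2, 6, 14, 1, 3, 4⟩,
  ⟨27, 55, -2, 27, 59, 1, 3, 4⟩,
  ⟨36, 79, 1, 45, 94, -2, 3, 4⟩,
  ⟨12, 27, 1, 21, 50, 2, 3, 4⟩,
  ⟨9, 21, 1, 57, 120, -2, 3, 4⟩,
  ⟨6, 6, -2, 45, 100, 1, 3, 3⟩,
  ⟨36, 69, -2, 48, 108, 1, 3, 2⟩,
  ⟨15, 33, 1, 45, 93, -2, 3, 4⟩,
  ⟨18, 41, 1, 57, 117, -2, 3, 4⟩,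
  ⟨36, 70, -2, 57, 126, 1, 3, 3⟩,
  ⟨6, 12, 0, 27, 58, 0, 0, 1⟩,
  ⟨6, 13, 0, 36, 76, 0, 0, 1⟩,
  ⟨9, 18, 0, 60, 130, 0, 0, 1⟩,
  ⟨9, 19, 0, 18, 37, 0, 0, 1⟩,
  ⟨9, 20, 0, 57, 122, 0, 0, 1⟩,
  ⟨12, 25, 0, 51, 112, 0, 0, 1⟩,
  ⟨12, 26, 0, 51, 110, 0, 0, 1⟩,
  ⟨15, 31, 0, 45, 96, 0, 0, 1⟩,
  ⟨15, 32, 0, 36, 77, 0, 0, 1⟩,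
  ⟨18, 38, 0, 30, 65, 0, 0, 1⟩,
  ⟨6, 11, 0, 18, 39, 0, 0, 1⟩,
  ⟨18, 40, 0, 57, 119, 0, 0, 1⟩,
  ⟨21, 45, 0, 21, 48, 0, 0, 1⟩,
  ⟨21, 46, 0, 60, 129, 0, 0, 1⟩,
  ⟨21, 47, 0, 30, 63, 0, 0, 1⟩,
  ⟨27, 57, 0, 36, 78, 0, 0, 1⟩,
  ⟨30, 64, 0, 39, 86, 0, 0, 1⟩,
  ⟨36, 71, 0, 48, 107, 0, 0, 1⟩,
  ⟨36, 72, 0, 57, 125, 0, 0, 1⟩,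
  ⟨36, 73, 0, 48, 106, 0, 0, 1⟩,
  ⟨36, 74, 0, 57, 124, 0, 0, 1⟩,
  ⟨36, 75, 0, 48, 105, 0, 0, 1⟩,
  ⟨0, 1, 0, 39, 83, 0, 0, 1⟩,
  ⟨39, 84, 0, 39, 85, 0, 0, 1⟩,
  ⟨45, 95, 0, 45, 97, 0, 0, 1⟩,
  ⟨6, 10, 0, 45, 98, 0, 0, 1⟩,
  ⟨6, 8, 0, 45, 99, 0, 0, 1⟩,
  ⟨48, 103, 0, 57, 123, 0, 0, 1⟩,
  ⟨48, 104, 0, 57, 121, 0, 0, 1⟩]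

theorem fam131_ok : check 60 131 fam131 = true := by
  decide +kernel

def fam135 : List Item := [
  ⟨24, 47, -2, 24, 60, 1, 3, 3⟩,
  ⟨30, 72, 1, 39, 84, -2, 3, 4⟩,
  ⟨42, 98, 1, 51, 109, -2, 3, 3⟩,
  ⟨0, 2, 1, 9, 27, 2, 3, 4⟩,
  ⟨6, 17, 1, 51, 117, 2, 3, 5⟩,
  ⟨3, 12, 1, 45, 108, 2, 3, 4⟩,
  ⟨15, 37, 1, 33, 79, 2, 3, 3⟩,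
  ⟨18, 44, 2, 57, 131, 1, 3, 4⟩,
  ⟨27, 64, 1, 51, 122, 2, 3, 3⟩,
  ⟨9, 24, 2, 39, 91, 1, 3, 5⟩,
  ⟨24, 56, 0, 57, 129, 0, 0, 1⟩,
  ⟨24, 57, 0, 45, 102, 0, 0, 1⟩,
  ⟨24, 58, 0, 45, 104, 0, 0, 1⟩,
  ⟨24, 49, 0, 24, 59, 0, 0, 1⟩,
  ⟨27, 63, 0, 51, 116, 0, 0, 1⟩,
  ⟨30, 67, 0, 30, 69, 0, 0, 1⟩,
  ⟨30, 68, 0, 39, 89, 0, 0, 1⟩,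
  ⟨30, 70, 0, 39, 88, 0, 0, 1⟩,
  ⟨3, 10, 0, 30, 71, 0, 0, 1⟩,
  ⟨24, 52, 0, 33, 76, 0, 0, 1⟩,
  ⟨9, 25, 0, 33, 77, 0, 0, 1⟩,
  ⟨3, 7, 0, 39, 85, 0, 0, 1⟩,
  ⟨39, 86, 0, 39, 90, 0, 0, 1⟩,
  ⟨3, 8, 0, 39, 87, 0, 0, 1⟩,
  ⟨42, 96, 0, 51, 118, 0, 0, 1⟩,
  ⟨42, 97, 0, 51, 111, 0, 0, 1⟩,
  ⟨45, 101, 0, 57, 130, 0, 0, 1⟩,
  ⟨3, 9, 0, 45, 103, 0, 0, 1⟩,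
  ⟨3, 11, 0, 45, 106, 0, 0, 1⟩,
  ⟨51, 113, 0, 51, 120, 0, 0, 1⟩,
  ⟨15, 35, 0, 51, 115, 0, 0, 1⟩,
  ⟨9, 22, 0, 57, 127, 0, 0, 1⟩,
  ⟨6, 16, 0, 57, 128, 0, 0, 1⟩,
  ⟨0, 1, 0, 24, 55, 0, 0, 1⟩,
  ⟨3, 6, 0, 24, 53, 0, 0, 1⟩,
  ⟨9, 23, 0, 18, 40, 0, 0, 1⟩,
  ⟨15, 34, 0, 24, 54, 0, 0, 1⟩,
  ⟨15, 36, 0, 24, 51, 0, 0, 1⟩,
  ⟨18, 41, 0, 18, 42, 0, 0, 1⟩]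

theorem fam135_ok : check 60 135 fam135 = true := by
  decide +kernel

def fam141 : List Item := [
  ⟨12, 33, 1, 21, 45, -2, 3, 4⟩,
  ⟨36, 85, -2, 36, 86, 1, 3, 6⟩,
  ⟨45, 103, -2, 45, 108, 1, 3, 5⟩,
  ⟨15, 40, 2, 27, 66, 1, 3, 4⟩,
  ⟨3, 10, 2, 51, 123, 1, 3, 6⟩,
  ⟨3, 11, 2, 48, 115, 1, 3, 5⟩,
  ⟨0, 2, 1, 39, 94, 2, 3, 5⟩,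
  ⟨9, 25, 1, 30, 76, 2, 3, 5⟩,
  ⟨21, 52, 1, 54, 130, 2, 3, 5⟩,
  ⟨24, 58, 1, 54, 129, 2, 3, 6⟩,
  ⟨12, 30, 0, 30, 73, 0, 0, 1⟩,
  ⟨12, 31, 0, 21, 49, 0, 0, 1⟩,
  ⟨12, 32, 0, 21, 47, 0, 0, 1⟩,
  ⟨15, 37, 0, 48, 114, 0, 0, 1⟩,
  ⟨15, 38, 0, 24, 57, 0, 0, 1⟩,
  ⟨21, 48, 0, 45, 104, 0, 0, 1⟩,
  ⟨9, 23, 0, 21, 50, 0, 0, 1⟩,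
  ⟨21, 51, 0, 39, 93, 0, 0, 1⟩,
  ⟨27, 64, 0, 51, 122, 0, 0, 1⟩,
  ⟨9, 21, 0, 27, 65, 0, 0, 1⟩,
  ⟨30, 70, 0, 39, 92, 0, 0, 1⟩,
  ⟨30, 71, 0, 45, 105, 0, 0, 1⟩,
  ⟨30, 72, 0, 45, 107, 0, 0, 1⟩,
  ⟨9, 24, 0, 30, 74, 0, 0, 1⟩,
  ⟨9, 22, 0, 45, 106, 0, 0, 1⟩,
  ⟨3, 8, 0, 48, 113, 0, 0, 1⟩,
  ⟨51, 120, 0, 60, 140, 0, 0, 1⟩,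
  ⟨0, 1, 0, 51, 121, 0, 0, 1⟩,
  ⟨3, 7, 0, 3, 9, 0, 0, 1⟩]

theorem fam141_ok : check 60 141 fam141 = true := by
  decide +kernel

def fam143 : List Item := [
  ⟨12, 31, 1, 21, 48, -2, 3, 5⟩,
  ⟨30, 73, 1, 39, 89, -2, 3, 5⟩,
  ⟨45, 99, -2, 45, 108, 1, 3, 4⟩,
  ⟨0, 4, 2, 51, 122, 1, 3, 6⟩,
  ⟨0, 7, 2, 48, 115, 1, 3, 4⟩,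
  ⟨21, 53, 1, 45, 104, -2, 3, 5⟩,
  ⟨21, 45, -2, 57, 139, 1, 3, 4⟩,
  ⟨6, 18, 1, 30, 71, -2, 3, 4⟩,
  ⟨9, 23, 1, 33, 82, 2, 3, 6⟩,
  ⟨24, 60, 2, 54, 129, 1, 3, 5⟩,
  ⟨12, 29, 0, 24, 63, 0, 0, 1⟩,
  ⟨12, 30, 0, 21, 52, 0, 0, 1⟩,
  ⟨15, 36, 0, 15, 37, 0, 0, 1⟩,
  ⟨6, 15, 0, 15, 38, 0, 0, 1⟩,
  ⟨21, 47, 0, 33, 80, 0, 0, 1⟩,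
  ⟨21, 49, 0, 51, 120, 0, 0, 1⟩,
  ⟨21, 50, 0, 57, 138, 0, 0, 1⟩,
  ⟨21, 51, 0, 51, 121, 0, 0, 1⟩,
  ⟨24, 58, 0, 48, 112, 0, 0, 1⟩,
  ⟨0, 1, 0, 24, 59, 0, 0, 1⟩,
  ⟨24, 61, 0, 48, 113, 0, 0, 1⟩,
  ⟨30, 70, 0, 39, 94, 0, 0, 1⟩,
  ⟨30, 72, 0, 39, 91, 0, 0, 1⟩,
  ⟨33, 78, 0, 57, 134, 0, 0, 1⟩,
  ⟨33, 79, 0, 57, 136, 0, 0, 1⟩,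
  ⟨45, 101, 0, 45, 107, 0, 0, 1⟩,
  ⟨45, 103, 0, 45, 106, 0, 0, 1⟩,
  ⟨45, 105, 0, 57, 137, 0, 0, 1⟩,
  ⟨48, 114, 0, 57, 135, 0, 0, 1⟩,
  ⟨6, 17, 0, 51, 119, 0, 0, 1⟩,
  ⟨6, 16, 0, 54, 128, 0, 0, 1⟩,
  ⟨0, 2, 0, 9, 22, 0, 0, 1⟩,
  ⟨0, 3, 0, 0, 5, 0, 0, 1⟩]

theorem fam143_ok : check 60 143 fam143 = true := by
  decide +kernel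

end Pool.Agent.Helper19_Horton
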