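import Pool.Agent.Helper19_Horton.Template

/-!
Families of strong starters, part 3.
-/

namespace Pool.Agent.Helper19_Horton

def fam145 : List Item := [
  ⟨15, 40, 1, 24, 55, -2, 3, 5⟩,
  ⟨36, 89, 1, 45, 108, -2, 3, 6⟩,
  ⟨9, 20, -2, 9, 25, 1, 3, 6⟩,
  ⟨0, 2, 1, 48, 119, 2, 3, 5⟩,
  ⟨18, 48, 2, 33, 83, 1, 3, 6⟩,
  ⟨24, 61, 1, 39, 99, 2, 3, 6⟩,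
  ⟨3, 11, 2, 45, 112, 1, 3, 6⟩,
  ⟨12, 32, 1, 48, 120, 2, 3, 6⟩,
  ⟨30, 74, 1, 54, 133, 2, 3, 6⟩,
  ⟨27, 69, 1, 54, 136, 2, 3, 4⟩,
  ⟨15, 38, 0, 27, 67, 0, 0, 1⟩,
  ⟨15, 39, 0, 48, 118, 0, 0, 1⟩,
  ⟨9, 22, 0, 18, 45, 0, 0, 1⟩,
  ⟨18, 46, 0, 27, 68, 0, 0, 1⟩,
  ⟨24, 57, 0, 60, 144, 0, 0, 1⟩,
  ⟨24, 59, 0, 33, 80, 0, 0, 1⟩,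
  ⟨9, 24, 0, 24, 60, 0, 0, 1⟩,
  ⟨3, 8, 0, 30, 73, 0, 0, 1⟩,
  ⟨3, 9, 0, 33, 81, 0, 0, 1⟩,
  ⟨12, 31, 0, 33, 82, 0, 0, 1⟩,
  ⟨39, 95, 0, 54, 132, 0, 0, 1⟩,
  ⟨0, 1, 0, 39, 96, 0, 0, 1⟩,
  ⟨9, 23, 0, 39, 97, 0, 0, 1⟩,
  ⟨45, 110, 0, 45, 111, 0, 0, 1⟩,
  ⟨54, 129, 0, 54, 131, 0, 0, 1⟩,
  ⟨3, 7, 0, 54, 134, 0, 0, 1⟩]

theorem fam145_ok : check 60 145 fam145 = true := by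
  decide +kernel

def fam147 : List Item := [
  ⟨0, 3, 1, 60, 142, -2, 3, 4⟩,
  ⟨12, 26, -2, 12, 32, 1, 3, 4⟩,
  ⟨33, 84, 1, 42, 100, -2, 3, 6⟩,
  ⟨15, 41, 2, 27, 70, 1, 3, 5⟩,
  ⟨36, 93, 2, 51, 129, 1, 3, 5⟩,
  ⟨6, 17, 2, 24, 62, 1, 3, 6⟩,
  ⟨3, 12, 1, 42, 106, 2, 3, 5⟩,
  ⟨21, 55, 1, 42, 111, 2, 3, 5⟩,
  ⟨30, 76, 1, 54, 139, 2, 3, 4⟩,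
  ⟨15, 42, 2, 48, 120, 1, 3, 5⟩,
  ⟨0, 2, 0, 42, 103, 0, 0, 1⟩,
  ⟨3, 7, 0, 3, 10, 0, 0, 1⟩,
  ⟨3, 8, 0, 15, 38, 0, 0, 1⟩,
  ⟨3, 9, 0, 12, 29, 0, 0, 1⟩,
  ⟨3, 11, 0, 36, 91, 0, 0, 1⟩,
  ⟨6, 18, 0, 54, 134, 0, 0, 1⟩,
  ⟨12, 28, 0, 21, 52, 0, 0, 1⟩,
  ⟨12, 30, 0, 48, 116, 0, 0, 1⟩,
  ⟨12, 31, 0, 27, 69, 0, 0, 1⟩,
  ⟨15, 36, 0, 33, 83, 0, 0, 1⟩,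
  ⟨15, 37, 0, 24, 60, 0, 0, 1⟩,
  ⟨15, 39, 0, 48, 118, 0, 0, 1⟩,
  ⟨0, 1, 0, 15, 40, 0, 0, 1⟩,
  ⟨21, 51, 0, 21, 53, 0, 0, 1⟩,
  ⟨21, 54, 0, 30, 75, 0, 0, 1⟩,
  ⟨24, 61, 0, 60, 146, 0, 0, 1⟩,
  ⟨27, 68, 0, 42, 105, 0, 0, 1⟩,
  ⟨33, 80, 0, 51, 128, 0, 0, 1⟩,
  ⟨33, 81, 0, 54, 135, 0, 0, 1⟩,
  ⟨33, 82, 0, 54, 137, 0, 0, 1⟩,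
  ⟨42, 102, 0, 42, 107, 0, 0, 1⟩,
  ⟨42, 104, 0, 51, 126, 0, 0, 1⟩,
  ⟨42, 109, 0, 51, 127, 0, 0, 1⟩,
  ⟨51, 125, 0, 60, 144, 0, 0, 1⟩]

theorem fam147_ok : check 60 147 fam147 = true := by
  decide +kernel

def fam149 : List Item := [
  ⟨0, 3, 1, 9, 20, -2, 3, 6⟩,
  ⟨33, 76, -2, 33, 85, 1, 3, 4⟩,
  ⟨54, 132, -2, 54, 139, 1, 3, 5⟩,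
  ⟨9, 29, 2, 21, 58, 1, 3, 4⟩,
  ⟨3, 13, 2, 18, 48, 1, 3, 6⟩,
  ⟨27, 75, 2, 45, 116, 1, 3, 4⟩,
  ⟨36, 94, 2, 57, 144, 1, 3, 5⟩,
  ⟨15, 40, 1, 36, 93, 2, 3, 6⟩,
  ⟨24, 62, 1, 48, 121, 2, 3, 6⟩,
  ⟨9, 28, 2, 42, 107, 1, 3, 5⟩,
  ⟨0, 2, 0, 15, 39, 0, 0, 1⟩,
  ⟨3, 9, 0, 48, 122, 0, 0, 1⟩,
  ⟨3, 11, 0, 21, 54, 0, 0, 1⟩,
  ⟨9, 22, 0, 42, 104, 0, 0, 1⟩,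
  ⟨9, 24, 0, 42, 105, 0, 0, 1⟩,
  ⟨9, 25, 0, 27, 69, 0, 0, 1⟩,
  ⟨0, 1, 0, 9, 26, 0, 0, 1⟩,
  ⟨9, 27, 0, 18, 47, 0, 0, 1⟩,
  ⟨15, 37, 0, 42, 106, 0, 0, 1⟩,
  ⟨15, 38, 0, 54, 135, 0, 0, 1⟩,
  ⟨18, 46, 0, 36, 91, 0, 0, 1⟩,
  ⟨21, 55, 0, 48, 120, 0, 0, 1⟩,
  ⟨21, 56, 0, 21, 57, 0, 0, 1⟩,
  ⟨27, 68, 0, 36, 89, 0, 0, 1⟩,
  ⟨27, 71, 0, 54, 137, 0, 0, 1⟩,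
  ⟨27, 73, 0, 45, 115, 0, 0, 1⟩,
  ⟨33, 78, 0, 33, 84, 0, 0, 1⟩,
  ⟨33, 80, 0, 33, 83, 0, 0, 1⟩,
  ⟨33, 82, 0, 54, 133, 0, 0, 1⟩,
  ⟨36, 90, 0, 45, 113, 0, 0, 1⟩,
  ⟨36, 92, 0, 45, 114, 0, 0, 1⟩,
  ⟨45, 112, 0, 54, 136, 0, 0, 1⟩,
  ⟨54, 134, 0, 54, 138, 0, 0, 1⟩]

theorem fam149_ok : check 60 149 fam149 = true := by
  decide +kernel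

def fam151 : List Item := [
  ⟨33, 80, -2, 33, 85, 1, 3, 4⟩,
  ⟨39, 100, 1, 48, 119, -2, 3, 6⟩,
  ⟨0, 4, 1, 9, 16, -2, 3, 4⟩,
  ⟨12, 37, 2, 24, 63, 1, 3, 4⟩,
  ⟨42, 112, 2, 57, 146, 1, 3, 5⟩,
  ⟨3, 9, 2, 48, 122, 1, 3, 6⟩,
  ⟨9, 25, 1, 27, 71, 2, 3, 4⟩,
  ⟨12, 34, 2, 36, 92, 1, 3, 5⟩,
  ⟨18, 49, 2, 54, 136, 1, 3, 5⟩,
  ⟨18, 48, 2, 51, 130, 1, 3, 6⟩,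
  ⟨33, 83, 0, 57, 144, 0, 0, 1⟩,
  ⟨12, 33, 0, 33, 84, 0, 0, 1⟩,
  ⟨27, 72, 0, 36, 89, 0, 0, 1⟩,
  ⟨0, 1, 0, 36, 90, 0, 0, 1⟩,
  ⟨36, 91, 0, 57, 143, 0, 0, 1⟩,
  ⟨39, 97, 0, 57, 142, 0, 0, 1⟩,
  ⟨9, 22, 0, 39, 98, 0, 0, 1⟩,
  ⟨39, 99, 0, 48, 121, 0, 0, 1⟩,
  ⟨18, 46, 0, 42, 106, 0, 0, 1⟩,
  ⟨27, 70, 0, 42, 107, 0, 0, 1⟩,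
  ⟨18, 45, 0, 42, 108, 0, 0, 1⟩,
  ⟨42, 110, 0, 57, 145, 0, 0, 1⟩,
  ⟨9, 21, 0, 51, 128, 0, 0, 1⟩,
  ⟨12, 31, 0, 51, 129, 0, 0, 1⟩,
  ⟨33, 82, 0, 57, 141, 0, 0, 1⟩,
  ⟨0, 2, 0, 9, 20, 0, 0, 1⟩,
  ⟨0, 3, 0, 9, 18, 0, 0, 1⟩,
  ⟨3, 8, 0, 18, 44, 0, 0, 1⟩,
  ⟨9, 23, 0, 9, 24, 0, 0, 1⟩,
  ⟨12, 29, 0, 33, 79, 0, 0, 1⟩,
  ⟨12, 30, 0, 24, 59, 0, 0, 1⟩,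
  ⟨12, 32, 0, 24, 60, 0, 0, 1⟩,
  ⟨12, 35, 0, 24, 62, 0, 0, 1⟩,
  ⟨18, 47, 0, 27, 68, 0, 0, 1⟩,
  ⟨24, 61, 0, 33, 81, 0, 0, 1⟩,
  ⟨27, 67, 0, 27, 69, 0, 0, 1⟩]

theorem fam151_ok : check 60 151 fam151 = true := by
  decide +kernel

def fam153 : List Item := [
  ⟨6, 18, 1, 15, 38, -2, 3, 6⟩,
  ⟨39, 94, -2, 39, 103, 1, 3, 5⟩,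
  ⟨45, 119, 1, 54, 135, -2, 3, 4⟩,
  ⟨18, 51, 2, 30, 78, 1, 3, 5⟩,
  ⟨3, 8, 1, 48, 128, 2, 3, 5⟩,
  ⟨9, 27, 2, 54, 139, 1, 3, 5⟩,
  ⟨15, 42, 1, 33, 89, 2, 3, 4⟩,
  ⟨18, 50, 2, 42, 108, 1, 3, 6⟩,
  ⟨0, 2, 1, 24, 66, 2, 3, 6⟩,
  ⟨24, 67, 2, 57, 147, 1, 3, 4⟩,
  ⟨6, 16, 0, 6, 17, 0, 0, 1⟩,
  ⟨9, 24, 0, 9, 26, 0, 0, 1⟩,
  ⟨9, 25, 0, 33, 84, 0, 0, 1⟩,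
  ⟨15, 37, 0, 15, 41, 0, 0, 1⟩,
  ⟨15, 39, 0, 33, 85, 0, 0, 1⟩,
  ⟨15, 40, 0, 30, 75, 0, 0, 1⟩,
  ⟨18, 46, 0, 45, 117, 0, 0, 1⟩,
  ⟨18, 47, 0, 54, 137, 0, 0, 1⟩,
  ⟨18, 48, 0, 39, 99, 0, 0, 1⟩,
  ⟨18, 49, 0, 30, 77, 0, 0, 1⟩,
  ⟨24, 61, 0, 39, 101, 0, 0, 1⟩,
  ⟨24, 62, 0, 39, 98, 0, 0, 1⟩,
  ⟨24, 63, 0, 48, 124, 0, 0, 1⟩,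
  ⟨24, 64, 0, 45, 116, 0, 0, 1⟩,
  ⟨24, 65, 0, 48, 125, 0, 0, 1⟩,
  ⟨33, 83, 0, 57, 145, 0, 0, 1⟩,
  ⟨6, 15, 0, 33, 87, 0, 0, 1⟩,
  ⟨39, 96, 0, 39, 102, 0, 0, 1⟩,
  ⟨6, 14, 0, 39, 97, 0, 0, 1⟩,
  ⟨39, 100, 0, 54, 138, 0, 0, 1⟩,
  ⟨45, 114, 0, 60, 151, 0, 0, 1⟩,
  ⟨0, 1, 0, 45, 115, 0, 0, 1⟩,
  ⟨45, 118, 0, 60, 152, 0, 0, 1⟩,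
  ⟨48, 123, 0, 48, 126, 0, 0, 1⟩,
  ⟨48, 127, 0, 57, 146, 0, 0, 1⟩,
  ⟨6, 13, 0, 57, 144, 0, 0, 1⟩]

theorem fam153_ok : check 60 153 fam153 = true := by
  decide +kernel

end Pool.Agent.Helper19_Horton
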