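import Pool.Agent.Helper19_Horton.Template

/-!
Families of strong starters, part 4.
-/

namespace Pool.Agent.Helper19_Horton

def fam155 : List Item := [
  ⟨42, 109, 1, 51, 125, -2, 3, 6⟩,
  ⟨15, 31, -2, 15, 39, 1, 3, 4⟩,
  ⟨36, 86, -2, 36, 92, 1, 3, 5⟩,
  ⟨0, 1, 2, 51, 131, 1, 3, 6⟩,
  ⟨18, 45, 1, 30, 79, 2, 3, 5⟩,
  ⟨9, 26, 2, 27, 70, 1, 3, 5⟩,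
  ⟨6, 16, 1, 45, 118, 2, 3, 6⟩,
  ⟨0, 2, 2, 39, 101, 1, 3, 6⟩,
  ⟨21, 59, 2, 57, 148, 1, 3, 5⟩,
  ⟨21, 56, 2, 54, 140, 1, 3, 6⟩,
  ⟨6, 15, 0, 42, 107, 0, 0, 1⟩,
  ⟨42, 108, 0, 51, 127, 0, 0, 1⟩,
  ⟨45, 116, 0, 54, 139, 0, 0, 1⟩,
  ⟨21, 51, 0, 51, 129, 0, 0, 1⟩,
  ⟨51, 130, 0, 60, 154, 0, 0, 1⟩,
  ⟨18, 44, 0, 54, 137, 0, 0, 1⟩,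
  ⟨6, 14, 0, 54, 138, 0, 0, 1⟩,
  ⟨9, 24, 0, 57, 146, 0, 0, 1⟩,
  ⟨21, 57, 0, 57, 147, 0, 0, 1⟩,
  ⟨21, 53, 0, 60, 153, 0, 0, 1⟩,
  ⟨6, 13, 0, 30, 77, 0, 0, 1⟩,
  ⟨9, 22, 0, 27, 69, 0, 0, 1⟩,
  ⟨9, 23, 0, 18, 43, 0, 0, 1⟩,
  ⟨15, 33, 0, 15, 38, 0, 0, 1⟩,
  ⟨15, 35, 0, 15, 37, 0, 0, 1⟩,
  ⟨15, 36, 0, 36, 90, 0, 0, 1⟩,
  ⟨21, 50, 0, 36, 89, 0, 0, 1⟩,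
  ⟨21, 52, 0, 39, 98, 0, 0, 1⟩,
  ⟨21, 54, 0, 39, 99, 0, 0, 1⟩,
  ⟨21, 55, 0, 30, 76, 0, 0, 1⟩,
  ⟨27, 68, 0, 39, 100, 0, 0, 1⟩,
  ⟨30, 75, 0, 39, 97, 0, 0, 1⟩,
  ⟨36, 88, 0, 36, 91, 0, 0, 1⟩]

theorem fam155_ok : check 60 155 fam155 = true := by
  decide +kernel

def fam157 : List Item := [
  ⟨6, 15, 1, 15, 34, -2, 3, 4⟩,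
  ⟨21, 50, -2, 21, 55, 1, 3, 6⟩,
  ⟨39, 92, -2, 39, 104, 1, 3, 4⟩,
  ⟨0, 1, 1, 48, 127, 2, 3, 6⟩,
  ⟨3, 8, 1, 48, 128, 2, 3, 6⟩,
  ⟨15, 37, -2, 30, 78, 1, 3, 6⟩,
  ⟨30, 74, -2, 45, 117, 1, 3, 5⟩,
  ⟨39, 99, -2, 54, 141, 1, 3, 6⟩,
  ⟨15, 43, 2, 42, 109, 1, 3, 4⟩,
  ⟨24, 67, 2, 57, 151, 1, 3, 5⟩,
  ⟨9, 19, 0, 9, 26, 0, 0, 1⟩,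
  ⟨9, 20, 0, 9, 24, 0, 0, 1⟩,
  ⟨9, 21, 0, 54, 139, 0, 0, 1⟩,
  ⟨9, 22, 0, 39, 100, 0, 0, 1⟩,
  ⟨9, 23, 0, 33, 84, 0, 0, 1⟩,
  ⟨9, 25, 0, 24, 65, 0, 0, 1⟩,
  ⟨15, 36, 0, 15, 38, 0, 0, 1⟩,
  ⟨15, 39, 0, 48, 124, 0, 0, 1⟩,
  ⟨15, 41, 0, 42, 108, 0, 0, 1⟩,
  ⟨21, 51, 0, 57, 149, 0, 0, 1⟩,
  ⟨21, 52, 0, 57, 147, 0, 0, 1⟩,
  ⟨21, 53, 0, 48, 123, 0, 0, 1⟩,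
  ⟨21, 54, 0, 45, 114, 0, 0, 1⟩,
  ⟨24, 61, 0, 57, 150, 0, 0, 1⟩,
  ⟨24, 62, 0, 24, 63, 0, 0, 1⟩,
  ⟨24, 64, 0, 48, 122, 0, 0, 1⟩,
  ⟨30, 76, 0, 39, 98, 0, 0, 1⟩,
  ⟨30, 77, 0, 39, 101, 0, 0, 1⟩,
  ⟨6, 14, 0, 33, 85, 0, 0, 1⟩,
  ⟨33, 87, 0, 60, 156, 0, 0, 1⟩,
  ⟨39, 94, 0, 39, 103, 0, 0, 1⟩,
  ⟨39, 96, 0, 39, 102, 0, 0, 1⟩,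
  ⟨45, 113, 0, 45, 116, 0, 0, 1⟩,
  ⟨45, 115, 0, 54, 140, 0, 0, 1⟩,
  ⟨48, 125, 0, 57, 148, 0, 0, 1⟩,
  ⟨3, 7, 0, 48, 126, 0, 0, 1⟩]

theorem fam157_ok : check 60 157 fam157 = true := by
  decide +kernel

def fam159 : List Item := [
  ⟨24, 60, -2, 24, 68, 1, 3, 5⟩,
  ⟨27, 75, 1, 36, 93, -2, 3, 4⟩,
  ⟨45, 114, -2, 45, 124, 1, 3, 5⟩,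
  ⟨45, 117, -2, 54, 145, 1, 3, 4⟩,
  ⟨15, 39, -2, 57, 154, 1, 3, 4⟩,
  ⟨3, 12, 1, 54, 138, -2, 3, 5⟩,
  ⟨0, 5, 1, 18, 53, 2, 3, 4⟩,
  ⟨15, 36, -2, 36, 100, 1, 3, 4⟩,
  ⟨6, 18, 1, 36, 90, -2, 3, 4⟩,
  ⟨15, 42, 1, 54, 139, -2, 3, 5⟩,
  ⟨24, 65, 0, 45, 119, 0, 0, 1⟩,
  ⟨24, 66, 0, 54, 142, 0, 0, 1⟩,
  ⟨24, 63, 0, 24, 67, 0, 0, 1⟩,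
  ⟨6, 17, 0, 27, 73, 0, 0, 1⟩,
  ⟨27, 74, 0, 36, 97, 0, 0, 1⟩,
  ⟨30, 79, 0, 30, 85, 0, 0, 1⟩,
  ⟨30, 80, 0, 39, 105, 0, 0, 1⟩,
  ⟨30, 81, 0, 39, 107, 0, 0, 1⟩,
  ⟨0, 4, 0, 30, 82, 0, 0, 1⟩,
  ⟨30, 83, 0, 39, 104, 0, 0, 1⟩,
  ⟨36, 92, 0, 45, 121, 0, 0, 1⟩,
  ⟨36, 94, 0, 57, 152, 0, 0, 1⟩,
  ⟨18, 48, 0, 36, 95, 0, 0, 1⟩,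
  ⟨36, 96, 0, 57, 151, 0, 0, 1⟩,
  ⟨36, 98, 0, 54, 141, 0, 0, 1⟩,
  ⟨15, 40, 0, 36, 99, 0, 0, 1⟩,
  ⟨39, 109, 0, 57, 149, 0, 0, 1⟩,
  ⟨15, 41, 0, 45, 116, 0, 0, 1⟩,
  ⟨45, 118, 0, 45, 123, 0, 0, 1⟩,
  ⟨15, 38, 0, 45, 120, 0, 0, 1⟩,
  ⟨24, 61, 0, 45, 122, 0, 0, 1⟩,
  ⟨9, 27, 0, 48, 129, 0, 0, 1⟩,
  ⟨3, 11, 0, 54, 140, 0, 0, 1⟩,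
  ⟨24, 64, 0, 54, 143, 0, 0, 1⟩,
  ⟨3, 9, 0, 54, 144, 0, 0, 1⟩,
  ⟨18, 51, 0, 57, 150, 0, 0, 1⟩,
  ⟨18, 47, 0, 57, 153, 0, 0, 1⟩,
  ⟨9, 31, 0, 60, 158, 0, 0, 1⟩,
  ⟨0, 1, 0, 0, 2, 0, 0, 1⟩,
  ⟨0, 3, 0, 18, 49, 0, 0, 1⟩,
  ⟨3, 10, 0, 24, 62, 0, 0, 1⟩,
  ⟨9, 22, 0, 9, 29, 0, 0, 1⟩,
  ⟨9, 23, 0, 18, 50, 0, 0, 1⟩,
  ⟨9, 24, 0, 9, 26, 0, 0, 1⟩,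
  ⟨9, 25, 0, 9, 28, 0, 0, 1⟩]

theorem fam159_ok : check 60 159 fam159 = true := by
  decide +kernel

def fam163 : List Item := [
  ⟨21, 55, -2, 21, 57, 1, 3, 7⟩,
  ⟨33, 85, -2, 33, 91, 1, 3, 7⟩,
  ⟨39, 107, 1, 48, 129, -2, 3, 6⟩,
  ⟨3, 8, 1, 51, 141, 2, 3, 6⟩,
  ⟨9, 29, 2, 57, 158, 1, 3, 5⟩,
  ⟨0, 1, 1, 15, 42, 2, 3, 7⟩,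
  ⟨27, 74, 2, 48, 131, 1, 3, 7⟩,
  ⟨6, 17, 1, 42, 116, 2, 3, 6⟩,
  ⟨9, 26, 2, 36, 99, 1, 3, 5⟩,
  ⟨24, 65, 1, 51, 142, 2, 3, 5⟩,
  ⟨9, 24, 0, 24, 64, 0, 0, 1⟩,
  ⟨27, 70, 0, 48, 128, 0, 0, 1⟩,
  ⟨27, 71, 0, 27, 72, 0, 0, 1⟩,
  ⟨33, 87, 0, 57, 153, 0, 0, 1⟩,
  ⟨6, 14, 0, 33, 88, 0, 0, 1⟩,
  ⟨33, 89, 0, 57, 156, 0, 0, 1⟩,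
  ⟨6, 15, 0, 33, 90, 0, 0, 1⟩,
  ⟨36, 98, 0, 48, 130, 0, 0, 1⟩,
  ⟨39, 104, 0, 57, 152, 0, 0, 1⟩,
  ⟨39, 105, 0, 57, 155, 0, 0, 1⟩,
  ⟨15, 38, 0, 39, 106, 0, 0, 1⟩,
  ⟨42, 113, 0, 42, 117, 0, 0, 1⟩,
  ⟨9, 27, 0, 42, 114, 0, 0, 1⟩,
  ⟨42, 115, 0, 51, 138, 0, 0, 1⟩,
  ⟨15, 41, 0, 51, 139, 0, 0, 1⟩,
  ⟨6, 16, 0, 51, 140, 0, 0, 1⟩,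
  ⟨15, 40, 0, 57, 154, 0, 0, 1⟩,
  ⟨9, 25, 0, 57, 157, 0, 0, 1⟩,
  ⟨9, 23, 0, 21, 56, 0, 0, 1⟩,
  ⟨15, 36, 0, 15, 39, 0, 0, 1⟩]

theorem fam163_ok : check 60 163 fam163 = true := by
  decide +kernel

def fam165 : List Item := [
  ⟨51, 137, -2, 51, 141, 1, 3, 6⟩,
  ⟨6, 17, 1, 15, 40, -2, 3, 7⟩,
  ⟨39, 104, -2, 39, 107, 1, 3, 7⟩,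
  ⟨45, 124, 2, 57, 157, 1, 3, 7⟩,
  ⟨15, 41, 1, 27, 77, 2, 3, 5⟩,
  ⟨18, 52, 1, 33, 95, 2, 3, 6⟩,
  ⟨0, 2, 2, 21, 58, 1, 3, 6⟩,
  ⟨0, 1, 2, 24, 66, 1, 3, 7⟩,
  ⟨27, 76, 2, 54, 148, 1, 3, 5⟩,
  ⟨9, 29, 2, 42, 117, 1, 3, 6⟩,
  ⟨18, 51, 0, 51, 140, 0, 0, 1⟩,
  ⟨45, 125, 0, 54, 147, 0, 0, 1⟩,
  ⟨33, 86, 0, 57, 153, 0, 0, 1⟩,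
  ⟨6, 14, 0, 57, 154, 0, 0, 1⟩,
  ⟨9, 25, 0, 57, 155, 0, 0, 1⟩,
  ⟨39, 106, 0, 57, 156, 0, 0, 1⟩,
  ⟨33, 89, 0, 60, 164, 0, 0, 1⟩,
  ⟨6, 15, 0, 18, 49, 0, 0, 1⟩,
  ⟨6, 16, 0, 27, 73, 0, 0, 1⟩,
  ⟨9, 24, 0, 42, 115, 0, 0, 1⟩,
  ⟨9, 26, 0, 27, 75, 0, 0, 1⟩,
  ⟨9, 27, 0, 33, 93, 0, 0, 1⟩,
  ⟨18, 46, 0, 18, 48, 0, 0, 1⟩,
  ⟨18, 47, 0, 51, 139, 0, 0, 1⟩,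
  ⟨18, 50, 0, 33, 91, 0, 0, 1⟩,
  ⟨24, 64, 0, 33, 90, 0, 0, 1⟩,
  ⟨24, 65, 0, 45, 123, 0, 0, 1⟩,
  ⟨27, 74, 0, 42, 116, 0, 0, 1⟩,
  ⟨33, 87, 0, 33, 88, 0, 0, 1⟩,
  ⟨42, 114, 0, 51, 138, 0, 0, 1⟩]

theorem fam165_ok : check 60 165 fam165 = true := by
  decide +kernel

end Pool.Agent.Helper19_Horton
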