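import Pool.Agent.Helper19_Horton.Template

/-!
Families of strong starters, part 5.
-/

namespace Pool.Agent.Helper19_Horton

def fam167 : List Item := [
  ⟨33, 90, -2, 33, 93, 1, 3, 6⟩,
  ⟨48, 137, 1, 57, 151, -2, 3, 5⟩,
  ⟨21, 56, -2, 21, 60, 1, 3, 6⟩,
  ⟨27, 79, 2, 39, 110, 1, 3, 6⟩,
  ⟨9, 27, 2, 57, 161, 1, 3, 5⟩,
  ⟨0, 2, 1, 15, 43, 2, 3, 6⟩,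
  ⟨3, 11, 1, 42, 121, 2, 3, 5⟩,
  ⟨6, 19, 1, 42, 120, 2, 3, 7⟩,
  ⟨9, 26, 2, 36, 102, 1, 3, 7⟩,
  ⟨24, 71, 1, 51, 148, 2, 3, 5⟩,
  ⟨0, 1, 0, 36, 99, 0, 0, 1⟩,
  ⟨27, 77, 0, 36, 100, 0, 0, 1⟩,
  ⟨24, 69, 0, 36, 101, 0, 0, 1⟩,
  ⟨39, 109, 0, 48, 133, 0, 0, 1⟩,
  ⟨21, 57, 0, 42, 116, 0, 0, 1⟩,
  ⟨21, 59, 0, 42, 117, 0, 0, 1⟩,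
  ⟨42, 118, 0, 57, 158, 0, 0, 1⟩,
  ⟨24, 68, 0, 42, 119, 0, 0, 1⟩,
  ⟨6, 16, 0, 48, 131, 0, 0, 1⟩,
  ⟨48, 134, 0, 57, 159, 0, 0, 1⟩,
  ⟨48, 135, 0, 57, 155, 0, 0, 1⟩,
  ⟨48, 136, 0, 57, 153, 0, 0, 1⟩,
  ⟨15, 42, 0, 51, 142, 0, 0, 1⟩,
  ⟨27, 76, 0, 51, 144, 0, 0, 1⟩,
  ⟨6, 18, 0, 51, 146, 0, 0, 1⟩,
  ⟨15, 39, 0, 57, 157, 0, 0, 1⟩,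
  ⟨27, 78, 0, 57, 160, 0, 0, 1⟩,
  ⟨15, 37, 0, 60, 166, 0, 0, 1⟩,
  ⟨3, 8, 0, 21, 55, 0, 0, 1⟩,
  ⟨3, 9, 0, 33, 92, 0, 0, 1⟩,
  ⟨3, 10, 0, 21, 58, 0, 0, 1⟩,
  ⟨6, 17, 0, 24, 67, 0, 0, 1⟩,
  ⟨15, 40, 0, 15, 41, 0, 0, 1⟩,
  ⟨15, 44, 0, 24, 66, 0, 0, 1⟩,
  ⟨24, 70, 0, 33, 91, 0, 0, 1⟩]

theorem fam167_ok : check 60 167 fam167 = true := by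
  decide +kernel

def fam169 : List Item := [
  ⟨21, 61, 1, 30, 79, -2, 3, 5⟩,
  ⟨48, 131, -2, 48, 136, 1, 3, 6⟩,
  ⟨0, 1, 1, 60, 166, -2, 3, 7⟩,
  ⟨3, 12, 2, 15, 45, 1, 3, 5⟩,
  ⟨24, 70, 2, 39, 112, 1, 3, 7⟩,
  ⟨12, 36, 1, 54, 157, 2, 3, 6⟩,
  ⟨30, 89, 2, 51, 148, 1, 3, 5⟩,
  ⟨9, 26, 1, 30, 88, 2, 3, 7⟩,
  ⟨18, 53, 1, 42, 124, 2, 3, 6⟩,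
  ⟨3, 13, 2, 36, 105, 1, 3, 6⟩,
  ⟨21, 60, 0, 30, 81, 0, 0, 1⟩,
  ⟨24, 66, 0, 24, 69, 0, 0, 1⟩,
  ⟨24, 67, 0, 36, 101, 0, 0, 1⟩,
  ⟨15, 44, 0, 24, 68, 0, 0, 1⟩,
  ⟨30, 83, 0, 48, 133, 0, 0, 1⟩,
  ⟨30, 84, 0, 48, 135, 0, 0, 1⟩,
  ⟨30, 85, 0, 51, 146, 0, 0, 1⟩,
  ⟨12, 33, 0, 30, 86, 0, 0, 1⟩,
  ⟨30, 87, 0, 51, 147, 0, 0, 1⟩,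
  ⟨36, 99, 0, 54, 153, 0, 0, 1⟩,
  ⟨36, 102, 0, 36, 104, 0, 0, 1⟩,
  ⟨36, 103, 0, 54, 155, 0, 0, 1⟩,
  ⟨15, 42, 0, 39, 111, 0, 0, 1⟩,
  ⟨42, 119, 0, 51, 142, 0, 0, 1⟩,
  ⟨12, 34, 0, 42, 120, 0, 0, 1⟩,
  ⟨18, 52, 0, 42, 122, 0, 0, 1⟩,
  ⟨51, 143, 0, 60, 168, 0, 0, 1⟩,
  ⟨21, 59, 0, 51, 144, 0, 0, 1⟩,
  ⟨9, 25, 0, 51, 145, 0, 0, 1⟩,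
  ⟨3, 8, 0, 15, 43, 0, 0, 1⟩,
  ⟨3, 9, 0, 12, 35, 0, 0, 1⟩,
  ⟨3, 10, 0, 3, 11, 0, 0, 1⟩,
  ⟨9, 22, 0, 18, 50, 0, 0, 1⟩,
  ⟨9, 24, 0, 18, 51, 0, 0, 1⟩]

theorem fam169_ok : check 60 169 fam169 = true := by
  decide +kernel

def fam171 : List Item := [
  ⟨9, 15, -2, 9, 27, 1, 3, 5⟩,
  ⟨18, 47, -2, 18, 51, 1, 3, 7⟩,
  ⟨57, 159, -2, 57, 161, 1, 3, 7⟩,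
  ⟨36, 102, 1, 45, 128, 2, 3, 7⟩,
  ⟨12, 36, 2, 27, 77, 1, 3, 5⟩,
  ⟨24, 68, 1, 39, 112, 2, 3, 7⟩,
  ⟨0, 2, 1, 39, 113, 2, 3, 5⟩,
  ⟨30, 84, 1, 51, 148, 2, 3, 7⟩,
  ⟨21, 59, 1, 45, 131, 2, 3, 6⟩,
  ⟨3, 10, 2, 33, 95, 1, 3, 6⟩,
  ⟨9, 24, 0, 24, 66, 0, 0, 1⟩,
  ⟨9, 19, 0, 9, 25, 0, 0, 1⟩,
  ⟨9, 17, 0, 9, 26, 0, 0, 1⟩,
  ⟨12, 32, 0, 24, 67, 0, 0, 1⟩,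
  ⟨12, 33, 0, 45, 125, 0, 0, 1⟩,
  ⟨12, 34, 0, 51, 142, 0, 0, 1⟩,
  ⟨9, 23, 0, 18, 46, 0, 0, 1⟩,
  ⟨18, 48, 0, 39, 109, 0, 0, 1⟩,
  ⟨18, 49, 0, 30, 82, 0, 0, 1⟩,
  ⟨18, 50, 0, 60, 168, 0, 0, 1⟩,
  ⟨21, 58, 0, 39, 110, 0, 0, 1⟩,
  ⟨9, 22, 0, 24, 65, 0, 0, 1⟩,
  ⟨27, 75, 0, 45, 129, 0, 0, 1⟩,
  ⟨27, 76, 0, 45, 127, 0, 0, 1⟩,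
  ⟨9, 21, 0, 30, 83, 0, 0, 1⟩,
  ⟨33, 91, 0, 51, 146, 0, 0, 1⟩,
  ⟨33, 92, 0, 60, 170, 0, 0, 1⟩,
  ⟨33, 93, 0, 33, 94, 0, 0, 1⟩,
  ⟨0, 1, 0, 36, 101, 0, 0, 1⟩,
  ⟨39, 111, 0, 51, 145, 0, 0, 1⟩,
  ⟨45, 123, 0, 45, 126, 0, 0, 1⟩,
  ⟨3, 8, 0, 51, 143, 0, 0, 1⟩,
  ⟨51, 144, 0, 60, 169, 0, 0, 1⟩]

theorem fam171_ok : check 60 171 fam171 = true := by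
  decide +kernel

def fam173 : List Item := [
  ⟨24, 73, 1, 33, 94, -2, 3, 6⟩,
  ⟨57, 163, -2, 57, 167, 1, 3, 6⟩,
  ⟨18, 47, -2, 18, 55, 1, 3, 6⟩,
  ⟨33, 103, 2, 45, 134, 1, 3, 5⟩,
  ⟨27, 85, 2, 42, 125, 1, 3, 5⟩,
  ⟨9, 31, 1, 51, 152, 2, 3, 6⟩,
  ⟨0, 4, 2, 21, 65, 1, 3, 7⟩,
  ⟨0, 9, 2, 39, 118, 1, 3, 6⟩,
  ⟨12, 40, 2, 48, 141, 1, 3, 7⟩,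
  ⟨6, 20, 1, 33, 100, 2, 3, 7⟩,
  ⟨24, 72, 0, 33, 98, 0, 0, 1⟩,
  ⟨27, 79, 0, 27, 80, 0, 0, 1⟩,
  ⟨12, 38, 0, 27, 81, 0, 0, 1⟩,
  ⟨0, 3, 0, 27, 82, 0, 0, 1⟩,
  ⟨27, 83, 0, 42, 124, 0, 0, 1⟩,
  ⟨33, 95, 0, 51, 149, 0, 0, 1⟩,
  ⟨18, 51, 0, 33, 96, 0, 0, 1⟩,
  ⟨33, 97, 0, 48, 139, 0, 0, 1⟩,
  ⟨33, 99, 0, 33, 101, 0, 0, 1⟩,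
  ⟨39, 113, 0, 51, 148, 0, 0, 1⟩,
  ⟨21, 61, 0, 39, 114, 0, 0, 1⟩,
  ⟨39, 115, 0, 48, 140, 0, 0, 1⟩,
  ⟨18, 53, 0, 39, 116, 0, 0, 1⟩,
  ⟨39, 117, 0, 51, 151, 0, 0, 1⟩,
  ⟨9, 28, 0, 45, 130, 0, 0, 1⟩,
  ⟨45, 131, 0, 57, 164, 0, 0, 1⟩,
  ⟨0, 5, 0, 45, 132, 0, 0, 1⟩,
  ⟨45, 133, 0, 57, 165, 0, 0, 1⟩,
  ⟨0, 1, 0, 51, 150, 0, 0, 1⟩,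
  ⟨21, 63, 0, 57, 166, 0, 0, 1⟩,
  ⟨0, 2, 0, 21, 64, 0, 0, 1⟩,
  ⟨0, 7, 0, 9, 29, 0, 0, 1⟩,
  ⟨6, 18, 0, 21, 62, 0, 0, 1⟩,
  ⟨9, 27, 0, 9, 30, 0, 0, 1⟩,
  ⟨18, 49, 0, 18, 54, 0, 0, 1⟩]

theorem fam173_ok : check 60 173 fam173 = true := by
  decide +kernel

def fam175 : List Item := [
  ⟨33, 98, -2, 33, 101, 1, 3, 7⟩,
  ⟨0, 5, 1, 9, 25, -2, 3, 6⟩,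
  ⟨9, 31, 1, 18, 50, -2, 3, 7⟩,
  ⟨18, 55, 1, 27, 83, 2, 3, 5⟩,
  ⟨39, 119, 2, 54, 162, 1, 3, 5⟩,
  ⟨39, 120, 2, 57, 169, 1, 3, 6⟩,
  ⟨3, 14, 2, 45, 135, 1, 3, 6⟩,
  ⟨12, 39, 2, 36, 109, 1, 3, 6⟩,
  ⟨24, 74, 1, 48, 147, 2, 3, 7⟩,
  ⟨21, 64, 1, 48, 146, 2, 3, 6⟩,
  ⟨0, 4, 0, 33, 99, 0, 0, 1⟩,
  ⟨33, 100, 0, 54, 160, 0, 0, 1⟩,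
  ⟨36, 108, 0, 45, 132, 0, 0, 1⟩,
  ⟨18, 51, 0, 39, 115, 0, 0, 1⟩,
  ⟨39, 116, 0, 39, 118, 0, 0, 1⟩,
  ⟨18, 54, 0, 39, 117, 0, 0, 1⟩,
  ⟨45, 129, 0, 57, 167, 0, 0, 1⟩,
  ⟨45, 131, 0, 57, 168, 0, 0, 1⟩,
  ⟨45, 133, 0, 54, 158, 0, 0, 1⟩,
  ⟨3, 12, 0, 45, 134, 0, 0, 1⟩,
  ⟨9, 28, 0, 48, 141, 0, 0, 1⟩,
  ⟨24, 70, 0, 48, 142, 0, 0, 1⟩,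
  ⟨0, 2, 0, 48, 143, 0, 0, 1⟩,
  ⟨24, 73, 0, 48, 144, 0, 0, 1⟩,
  ⟨27, 84, 0, 48, 145, 0, 0, 1⟩,
  ⟨3, 13, 0, 54, 161, 0, 0, 1⟩,
  ⟨0, 1, 0, 27, 82, 0, 0, 1⟩,
  ⟨0, 3, 0, 18, 53, 0, 0, 1⟩,
  ⟨3, 11, 0, 21, 62, 0, 0, 1⟩,
  ⟨9, 26, 0, 21, 61, 0, 0, 1⟩,
  ⟨9, 27, 0, 21, 63, 0, 0, 1⟩,
  ⟨9, 29, 0, 27, 81, 0, 0, 1⟩,
  ⟨9, 30, 0, 18, 52, 0, 0, 1⟩,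
  ⟨21, 60, 0, 33, 93, 0, 0, 1⟩,
  ⟨24, 71, 0, 33, 97, 0, 0, 1⟩,
  ⟨24, 72, 0, 33, 95, 0, 0, 1⟩]

theorem fam175_ok : check 60 175 fam175 = true := by
  decide +kernel

end Pool.Agent.Helper19_Horton
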