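import Pool.Agent.Helper19_Horton.Template

/-!
Families of strong starters, part 6.
-/

namespace Pool.Agent.Helper19_Horton

def fam177 : List Item := [
  ⟨39, 111, -2, 39, 116, 1, 3, 5⟩,
  ⟨6, 19, 1, 15, 43, -2, 3, 7⟩,
  ⟨15, 48, 1, 24, 70, -2, 3, 6⟩,
  ⟨24, 72, 1, 33, 100, 2, 3, 6⟩,
  ⟨0, 1, 1, 45, 137, 2, 3, 7⟩,
  ⟨3, 10, 1, 45, 138, 2, 3, 6⟩,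
  ⟨9, 30, 2, 51, 153, 1, 3, 6⟩,
  ⟨18, 57, 2, 42, 125, 1, 3, 6⟩,
  ⟨30, 89, 1, 54, 165, 2, 3, 6⟩,
  ⟨27, 82, 1, 54, 164, 2, 3, 7⟩,
  ⟨33, 101, 0, 42, 121, 0, 0, 1⟩,
  ⟨6, 17, 0, 42, 122, 0, 0, 1⟩,
  ⟨33, 96, 0, 42, 123, 0, 0, 1⟩,
  ⟨3, 9, 0, 42, 124, 0, 0, 1⟩,
  ⟨9, 28, 0, 45, 131, 0, 0, 1⟩,
  ⟨27, 81, 0, 45, 132, 0, 0, 1⟩,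
  ⟨9, 29, 0, 45, 133, 0, 0, 1⟩,
  ⟨6, 18, 0, 45, 134, 0, 0, 1⟩,
  ⟨3, 8, 0, 45, 135, 0, 0, 1⟩,
  ⟨45, 136, 0, 54, 161, 0, 0, 1⟩,
  ⟨51, 150, 0, 51, 152, 0, 0, 1⟩,
  ⟨6, 16, 0, 51, 151, 0, 0, 1⟩,
  ⟨54, 159, 0, 54, 163, 0, 0, 1⟩,
  ⟨18, 58, 0, 54, 160, 0, 0, 1⟩,
  ⟨18, 54, 0, 54, 162, 0, 0, 1⟩,
  ⟨9, 26, 0, 24, 69, 0, 0, 1⟩,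
  ⟨9, 27, 0, 27, 80, 0, 0, 1⟩,
  ⟨15, 42, 0, 39, 113, 0, 0, 1⟩,
  ⟨15, 44, 0, 39, 114, 0, 0, 1⟩,
  ⟨15, 45, 0, 15, 46, 0, 0, 1⟩,
  ⟨15, 47, 0, 33, 99, 0, 0, 1⟩,
  ⟨18, 55, 0, 39, 115, 0, 0, 1⟩,
  ⟨18, 56, 0, 27, 79, 0, 0, 1⟩,
  ⟨24, 71, 0, 33, 97, 0, 0, 1⟩,
  ⟨27, 78, 0, 39, 112, 0, 0, 1⟩,
  ⟨33, 95, 0, 33, 98, 0, 0, 1⟩]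

theorem fam177_ok : check 60 177 fam177 = true := by
  decide +kernel

def fam187 : List Item := [
  ⟨9, 24, -2, 9, 31, 1, 3, 6⟩,
  ⟨15, 49, 1, 24, 76, -2, 3, 8⟩,
  ⟨36, 115, 1, 45, 138, -2, 3, 8⟩,
  ⟨0, 5, 1, 48, 156, 2, 3, 6⟩,
  ⟨18, 59, 2, 33, 106, 1, 3, 8⟩,
  ⟨24, 77, 1, 39, 127, 2, 3, 7⟩,
  ⟨3, 17, 2, 45, 143, 1, 3, 6⟩,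
  ⟨12, 41, 1, 48, 153, 2, 3, 7⟩,
  ⟨30, 97, 1, 54, 175, 2, 3, 6⟩,
  ⟨27, 87, 1, 54, 174, 2, 3, 7⟩,
  ⟨9, 30, 0, 18, 60, 0, 0, 1⟩,
  ⟨3, 11, 0, 12, 37, 0, 0, 1⟩,
  ⟨12, 38, 0, 24, 75, 0, 0, 1⟩,
  ⟨12, 39, 0, 45, 140, 0, 0, 1⟩,
  ⟨12, 40, 0, 54, 168, 0, 0, 1⟩,
  ⟨15, 48, 0, 48, 150, 0, 0, 1⟩,
  ⟨18, 57, 0, 39, 125, 0, 0, 1⟩,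
  ⟨18, 58, 0, 54, 169, 0, 0, 1⟩,
  ⟨27, 84, 0, 45, 141, 0, 0, 1⟩,
  ⟨27, 85, 0, 36, 114, 0, 0, 1⟩,
  ⟨9, 28, 0, 27, 86, 0, 0, 1⟩,
  ⟨30, 94, 0, 30, 95, 0, 0, 1⟩,
  ⟨3, 12, 0, 30, 96, 0, 0, 1⟩,
  ⟨9, 26, 0, 33, 103, 0, 0, 1⟩,
  ⟨33, 104, 0, 48, 152, 0, 0, 1⟩,
  ⟨33, 105, 0, 48, 154, 0, 0, 1⟩,
  ⟨0, 3, 0, 39, 123, 0, 0, 1⟩,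
  ⟨3, 15, 0, 45, 142, 0, 0, 1⟩,
  ⟨0, 1, 0, 48, 149, 0, 0, 1⟩,
  ⟨0, 2, 0, 48, 151, 0, 0, 1⟩,
  ⟨54, 167, 0, 54, 171, 0, 0, 1⟩,
  ⟨54, 170, 0, 54, 173, 0, 0, 1⟩,
  ⟨3, 13, 0, 54, 172, 0, 0, 1⟩,
  ⟨0, 4, 0, 9, 29, 0, 0, 1⟩]

theorem fam187_ok : check 60 187 fam187 = true := by
  decide +kernel

def fam193 : List Item := [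
  ⟨39, 118, -2, 39, 127, 1, 3, 7⟩,
  ⟨12, 39, 1, 21, 65, -2, 3, 8⟩,
  ⟨24, 79, 1, 33, 101, -2, 3, 6⟩,
  ⟨6, 21, 1, 54, 178, 2, 3, 8⟩,
  ⟨42, 135, 1, 54, 177, 2, 3, 7⟩,
  ⟨0, 4, 2, 45, 144, 1, 3, 6⟩,
  ⟨0, 5, 2, 21, 69, 1, 3, 6⟩,
  ⟨27, 88, 2, 51, 165, 1, 3, 6⟩,
  ⟨9, 30, 1, 33, 111, 2, 3, 7⟩,
  ⟨15, 52, 2, 48, 155, 1, 3, 7⟩,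
  ⟨24, 76, 0, 39, 125, 0, 0, 1⟩,
  ⟨39, 120, 0, 39, 126, 0, 0, 1⟩,
  ⟨42, 134, 0, 54, 171, 0, 0, 1⟩,
  ⟨0, 1, 0, 45, 142, 0, 0, 1⟩,
  ⟨24, 75, 0, 45, 143, 0, 0, 1⟩,
  ⟨12, 37, 0, 48, 150, 0, 0, 1⟩,
  ⟨33, 100, 0, 48, 151, 0, 0, 1⟩,
  ⟨12, 38, 0, 48, 152, 0, 0, 1⟩,
  ⟨9, 29, 0, 48, 153, 0, 0, 1⟩,
  ⟨33, 104, 0, 48, 154, 0, 0, 1⟩,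
  ⟨15, 47, 0, 51, 162, 0, 0, 1⟩,
  ⟨39, 122, 0, 51, 163, 0, 0, 1⟩,
  ⟨39, 124, 0, 51, 164, 0, 0, 1⟩,
  ⟨6, 17, 0, 54, 172, 0, 0, 1⟩,
  ⟨33, 102, 0, 54, 173, 0, 0, 1⟩,
  ⟨33, 109, 0, 54, 174, 0, 0, 1⟩,
  ⟨33, 105, 0, 54, 175, 0, 0, 1⟩,
  ⟨15, 50, 0, 54, 176, 0, 0, 1⟩,
  ⟨27, 86, 0, 60, 191, 0, 0, 1⟩,
  ⟨0, 2, 0, 21, 68, 0, 0, 1⟩,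
  ⟨0, 3, 0, 33, 107, 0, 0, 1⟩,
  ⟨6, 16, 0, 6, 19, 0, 0, 1⟩,
  ⟨6, 18, 0, 6, 20, 0, 0, 1⟩,
  ⟨15, 48, 0, 27, 87, 0, 0, 1⟩,
  ⟨15, 49, 0, 24, 77, 0, 0, 1⟩,
  ⟨21, 66, 0, 21, 67, 0, 0, 1⟩,
  ⟨24, 78, 0, 33, 103, 0, 0, 1⟩,
  ⟨27, 85, 0, 27, 89, 0, 0, 1⟩]

theorem fam193_ok : check 60 193 fam193 = true := by
  decide +kernel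

def fam197 : List Item := [
  ⟨42, 134, -2, 42, 142, 1, 3, 8⟩,
  ⟨3, 13, 1, 12, 38, -2, 3, 7⟩,
  ⟨30, 95, -2, 30, 101, 1, 3, 8⟩,
  ⟨45, 151, 2, 57, 189, 1, 3, 7⟩,
  ⟨6, 25, 2, 21, 73, 1, 3, 7⟩,
  ⟨36, 123, 2, 54, 182, 1, 3, 7⟩,
  ⟨12, 42, 2, 33, 111, 1, 3, 8⟩,
  ⟨12, 47, 2, 51, 172, 1, 3, 7⟩,
  ⟨0, 4, 1, 24, 84, 2, 3, 7⟩,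
  ⟨18, 62, 1, 45, 152, 2, 3, 7⟩,
  ⟨42, 140, 0, 42, 141, 0, 0, 1⟩,
  ⟨45, 150, 0, 54, 180, 0, 0, 1⟩,
  ⟨51, 165, 0, 51, 169, 0, 0, 1⟩,
  ⟨6, 21, 0, 51, 166, 0, 0, 1⟩,
  ⟨21, 69, 0, 51, 167, 0, 0, 1⟩,
  ⟨30, 98, 0, 51, 168, 0, 0, 1⟩,
  ⟨18, 60, 0, 51, 170, 0, 0, 1⟩,
  ⟨24, 82, 0, 51, 171, 0, 0, 1⟩,
  ⟨30, 100, 0, 54, 179, 0, 0, 1⟩,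
  ⟨6, 24, 0, 54, 181, 0, 0, 1⟩,
  ⟨0, 2, 0, 60, 196, 0, 0, 1⟩,
  ⟨0, 1, 0, 18, 61, 0, 0, 1⟩,
  ⟨0, 3, 0, 42, 139, 0, 0, 1⟩,
  ⟨3, 11, 0, 42, 137, 0, 0, 1⟩,
  ⟨3, 12, 0, 12, 43, 0, 0, 1⟩,
  ⟨6, 20, 0, 21, 70, 0, 0, 1⟩,
  ⟨6, 22, 0, 33, 110, 0, 0, 1⟩,
  ⟨6, 23, 0, 21, 72, 0, 0, 1⟩,
  ⟨12, 39, 0, 24, 80, 0, 0, 1⟩,
  ⟨12, 40, 0, 12, 45, 0, 0, 1⟩,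
  ⟨12, 41, 0, 42, 138, 0, 0, 1⟩,
  ⟨18, 58, 0, 33, 109, 0, 0, 1⟩,
  ⟨21, 71, 0, 30, 99, 0, 0, 1⟩,
  ⟨30, 97, 0, 42, 136, 0, 0, 1⟩,
  ⟨36, 119, 0, 36, 121, 0, 0, 1⟩]

theorem fam197_ok : check 60 197 fam197 = true := by
  decide +kernel

def fam199 : List Item := [
  ⟨15, 53, 1, 24, 80, -2, 3, 7⟩,
  ⟨33, 112, 1, 42, 138, -2, 3, 8⟩,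
  ⟨42, 137, -2, 42, 144, 1, 3, 7⟩,
  ⟨0, 4, 2, 51, 174, 1, 3, 7⟩,
  ⟨6, 25, 2, 54, 183, 1, 3, 6⟩,
  ⟨12, 43, 1, 27, 96, 2, 3, 6⟩,
  ⟨6, 26, 2, 48, 163, 1, 3, 7⟩,
  ⟨0, 5, 2, 24, 82, 1, 3, 8⟩,
  ⟨18, 63, 2, 45, 152, 1, 3, 8⟩,
  ⟨27, 93, 2, 57, 191, 1, 3, 8⟩,
  ⟨15, 52, 0, 48, 161, 0, 0, 1⟩,
  ⟨18, 60, 0, 18, 66, 0, 0, 1⟩,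
  ⟨18, 61, 0, 18, 62, 0, 0, 1⟩,
  ⟨18, 64, 0, 33, 111, 0, 0, 1⟩,
  ⟨24, 79, 0, 42, 140, 0, 0, 1⟩,
  ⟨0, 2, 0, 24, 81, 0, 0, 1⟩,
  ⟨15, 51, 0, 27, 90, 0, 0, 1⟩,
  ⟨27, 91, 0, 27, 94, 0, 0, 1⟩,
  ⟨27, 92, 0, 51, 172, 0, 0, 1⟩,
  ⟨15, 49, 0, 33, 108, 0, 0, 1⟩,
  ⟨33, 109, 0, 48, 160, 0, 0, 1⟩,
  ⟨15, 50, 0, 33, 110, 0, 0, 1⟩,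
  ⟨36, 120, 0, 36, 122, 0, 0, 1⟩,
  ⟨36, 121, 0, 51, 170, 0, 0, 1⟩,
  ⟨36, 123, 0, 45, 151, 0, 0, 1⟩,
  ⟨12, 40, 0, 42, 139, 0, 0, 1⟩,
  ⟨6, 23, 0, 42, 141, 0, 0, 1⟩,
  ⟨6, 21, 0, 42, 142, 0, 0, 1⟩,
  ⟨42, 143, 0, 54, 181, 0, 0, 1⟩,
  ⟨0, 3, 0, 48, 162, 0, 0, 1⟩,
  ⟨12, 41, 0, 51, 171, 0, 0, 1⟩,
  ⟨6, 24, 0, 51, 173, 0, 0, 1⟩,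
  ⟨6, 20, 0, 54, 182, 0, 0, 1⟩,
  ⟨12, 42, 0, 57, 189, 0, 0, 1⟩,
  ⟨12, 39, 0, 57, 190, 0, 0, 1⟩,
  ⟨0, 1, 0, 12, 37, 0, 0, 1⟩,
  ⟨6, 18, 0, 6, 22, 0, 0, 1⟩]

theorem fam199_ok : check 60 199 fam199 = true := by
  decide +kernel

end Pool.Agent.Helper19_Horton
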