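import Mathlib

/-!
Room squares, cyclic Room squares and patterned Room squares of side `n`.
-/

namespace Pool.Agent.Helper19_Horton

/-- The symbols of a Room square of side `n`: `ZMod n` together with `∞ = none`. -/
abbrev Symb (n : ℕ) : Type := Option (ZMod n)

/-- Arrays with rows and columns indexed by `ZMod n`; a cell is empty (`none`) or holds an
unordered pair of symbols. -/
abbrev Arr (n : ℕ) : Type := ZMod n → ZMod n → Option (Sym2 (Symb n))

/-- Room square of side `n`: filled cells hold pairs of distinct symbols, every symbol occurs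
exactly once in each row and in each column, every pair of distinct symbols occurs in exactly
one cell. -/
structure IsRoomSquare (n : ℕ) (R : Arr n) : Prop where
  distinct : ∀ r c e, R r c = some e → ¬ e.IsDiag
  row : ∀ (r : ZMod n) (s : Symb n), ∃! c : ZMod n, ∃ e, R r c = some e ∧ s ∈ e
  col : ∀ (c : ZMod n) (s : Symb n), ∃! r : ZMod n, ∃ e, R r c = some e ∧ s ∈ e
  pair : ∀ e : Sym2 (Symb n), ¬ e.IsDiag → ∃! p : ZMod n × ZMod n, R p.1 p.2 = some e

/-- `x ↦ x + 1` on symbols, with `∞ + 1 = ∞`. -/
def succSymb {n : ℕ} (s : Symb n) : Symb n := s.map (fun x => x + 1)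

/-- Cyclic arrays: whenever cell `(r,c)` holds `{x,y}`, cell `(r+1,c+1)` holds `{x+1,y+1}`. -/
def IsCyclic (n : ℕ) (R : Arr n) : Prop :=
  ∀ r c e, R r c = some e → R (r + 1) (c + 1) = some (e.map succSymb)

/-- Patterned Room square of side `n = 2m+1`: a cyclic Room square whose row `0` holds exactly
the pairs `{∞,0}` and `{k,-k}` for `1 ≤ k ≤ m`. -/
structure IsPatterned (n : ℕ) (R : Arr n) : Prop where
  room : IsRoomSquare n R
  cyclic : IsCyclic n R
  rowZero : ∀ e : Sym2 (Symb n), (∃ c, R 0 c = some e) ↔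
    (e = s(none, some 0) ∨
      ∃ k : ℕ, 1 ≤ k ∧ 2 * k + 1 ≤ n ∧ e = s(some (k : ZMod n), some (-(k : ZMod n))))

end Pool.Agent.Helper19_Horton
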