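import Pool.Agent.Helper19_Horton.SmallData
import Pool.Agent.Helper19_Horton.Data1
import Pool.Agent.Helper19_Horton.Data2
import Pool.Agent.Helper19_Horton.Data3
import Pool.Agent.Helper19_Horton.Data4
import Pool.Agent.Helper19_Horton.Data5
import Pool.Agent.Helper19_Horton.Data6

/-!
Strong starters exist in `ZMod n` for every odd `n ≥ 7` other than `9`.
-/

namespace Pool.Agent.Helper19_Horton

def smallNs : List ℕ := [7, 11, 13, 15, 17, 19, 21, 23, 25, 27, 29, 31, 33, 35, 37, 39, 41, 43, 45, 47, 49, 51, 53, 55, 57, 59, 61, 63, 65, 67, 69, 71, 73, 75, 77, 79, 81, 83, 85, 87, 89, 91, 93, 95, 97, 99, 103, 105, 107, 109, 111, 113, 115, 117, 127, 133, 137, 139]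

def famNs : List ℕ := [101, 119, 121, 123, 125, 129, 131, 135, 141, 143, 145, 147, 149, 151, 153, 155, 157, 159, 163, 165, 167, 169, 171, 173, 175, 177, 187, 193, 197, 199]

theorem small_all : ∀ n ∈ smallNs, HasStrongStarter n := by
  intro n hn
  simp only [smallNs, List.mem_cons, List.not_mem_nil, or_false] at hn
  rcases hn with rfl | rfl | rfl | rfl | rfl | rfl | rfl | rfl | rfl | rfl | rfl | rfl | rfl | rfl | rfl | rfl | rfl | rfl | rfl | rfl | rfl | rfl | rfl | rfl | rfl | rfl | rfl | rfl | rfl | rfl | rfl | rfl | rfl | rfl | rfl | rfl | rfl | rfl | rfl | rfl | rfl | rfl | rfl | rfl | rfl | rfl | rfl | rfl | rfl | rfl | rfl | rfl | rfl | rfl | rfl | rfl | rfl | rfl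
  · exact checkSmall_sound sm7_ok
  · exact checkSmall_sound sm11_ok
  · exact checkSmall_sound sm13_ok
  · exact checkSmall_sound sm15_ok
  · exact checkSmall_sound sm17_ok
  · exact checkSmall_sound sm19_ok
  · exact checkSmall_sound sm21_ok
  · exact checkSmall_sound sm23_ok
  · exact checkSmall_sound sm25_ok
  · exact checkSmall_sound sm27_ok
  · exact checkSmall_sound sm29_ok
  · exact checkSmall_sound sm31_ok
  · exact checkSmall_sound sm33_ok
  · exact checkSmall_sound sm35_ok
  · exact checkSmall_sound sm37_ok
  · exact checkSmall_sound sm39_ok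
  · exact checkSmall_sound sm41_ok
  · exact checkSmall_sound sm43_ok
  · exact checkSmall_sound sm45_ok
  · exact checkSmall_sound sm47_ok
  · exact checkSmall_sound sm49_ok
  · exact checkSmall_sound sm51_ok
  · exact checkSmall_sound sm53_ok
  · exact checkSmall_sound sm55_ok
  · exact checkSmall_sound sm57_ok
  · exact checkSmall_sound sm59_ok
  · exact checkSmall_sound sm61_ok
  · exact checkSmall_sound sm63_ok
  · exact checkSmall_sound sm65_ok
  · exact checkSmall_sound sm67_ok
  · exact checkSmall_sound sm69_ok
  · exact checkSmall_sound sm71_ok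
  · exact checkSmall_sound sm73_ok
  · exact checkSmall_sound sm75_ok
  · exact checkSmall_sound sm77_ok
  · exact checkSmall_sound sm79_ok
  · exact checkSmall_sound sm81_ok
  · exact checkSmall_sound sm83_ok
  · exact checkSmall_sound sm85_ok
  · exact checkSmall_sound sm87_ok
  · exact checkSmall_sound sm89_ok
  · exact checkSmall_sound sm91_ok
  · exact checkSmall_sound sm93_ok
  · exact checkSmall_sound sm95_ok
  · exact checkSmall_sound sm97_ok
  · exact checkSmall_sound sm99_ok
  · exact checkSmall_sound sm103_ok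
  · exact checkSmall_sound sm105_ok
  · exact checkSmall_sound sm107_ok
  · exact checkSmall_sound sm109_ok
  · exact checkSmall_sound sm111_ok
  · exact checkSmall_sound sm113_ok
  · exact checkSmall_sound sm115_ok
  · exact checkSmall_sound sm117_ok
  · exact checkSmall_sound sm127_ok
  · exact checkSmall_sound sm133_ok
  · exact checkSmall_sound sm137_ok
  · exact checkSmall_sound sm139_ok

theorem fam_all : ∀ N ∈ famNs, ∀ m, HasStrongStarter (60 * m + N) := by
  intro n hn
  simp only [famNs, List.mem_cons, List.not_mem_nil, or_false] at hn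
  rcases hn with rfl | rfl | rfl | rfl | rfl | rfl | rfl | rfl | rfl | rfl | rfl | rfl | rfl | rfl | rfl | rfl | rfl | rfl | rfl | rfl | rfl | rfl | rfl | rfl | rfl | rfl | rfl | rfl | rfl | rfl
  · exact check_sound fam101_ok
  · exact check_sound fam119_ok
  · exact check_sound fam121_ok
  · exact check_sound fam123_ok
  · exact check_sound fam125_ok
  · exact check_sound fam129_ok
  · exact check_sound fam131_ok
  · exact check_sound fam135_ok
  · exact check_sound fam141_ok
  · exact check_sound fam143_ok
  · exact check_sound fam145_ok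
  · exact check_sound fam147_ok
  · exact check_sound fam149_ok
  · exact check_sound fam151_ok
  · exact check_sound fam153_ok
  · exact check_sound fam155_ok
  · exact check_sound fam157_ok
  · exact check_sound fam159_ok
  · exact check_sound fam163_ok
  · exact check_sound fam165_ok
  · exact check_sound fam167_ok
  · exact check_sound fam169_ok
  · exact check_sound fam171_ok
  · exact check_sound fam173_ok
  · exact check_sound fam175_ok
  · exact check_sound fam177_ok
  · exact check_sound fam187_ok
  · exact check_sound fam193_ok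
  · exact check_sound fam197_ok
  · exact check_sound fam199_ok

def lowB (n : ℕ) : Bool :=
  decide (n ∈ smallNs) || famNs.any (fun N => Nat.ble N n && Nat.beq (N % 60) (n % 60))

theorem cover_low_aux : ∀ n < 200, (n % 2 = 1 ∧ 7 ≤ n ∧ n ≠ 9) → lowB n = true := by
  decide +kernel

theorem cover_low (n : ℕ) (hn : n < 200) (h1 : n % 2 = 1) (h2 : 7 ≤ n) (h3 : n ≠ 9) :
    n ∈ smallNs ∨ ∃ N ∈ famNs, N ≤ n ∧ N % 60 = n % 60 := by
  have := cover_low_aux n hn ⟨h1, h2, h3⟩
  unfold lowB at this
  simp only [Bool.or_eq_true, decide_eq_true_eq, List.any_eq_true, Bool.and_eq_true,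
    Nat.ble_eq, Nat.beq_eq] at this
  exact this

theorem cover_high : ∀ r < 60, r % 2 = 1 → ∃ N ∈ famNs, N < 200 ∧ N % 60 = r := by
  decide +kernel

theorem strongStarter_of_odd {n : ℕ} (hodd : n % 2 = 1) (h7 : 7 ≤ n) (h9 : n ≠ 9) :
    HasStrongStarter n := by
  have main : n ∈ smallNs ∨ ∃ N ∈ famNs, N ≤ n ∧ N % 60 = n % 60 := by
    rcases Nat.lt_or_ge n 200 with h | h
    · exact cover_low n h hodd h7 h9
    · obtain ⟨N, h1, h2, h3⟩ := cover_high (n % 60) (Nat.mod_lt _ (by norm_num)) (by omega)
      exact Or.inr ⟨N, h1, by omega, h3⟩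
  rcases main with h | ⟨N, h1, h2, h3⟩
  · exact small_all n h
  · have := fam_all N h1 ((n - N) / 60)
    have e : 60 * ((n - N) / 60) + N = n := by omega
    rwa [e] at this

end Pool.Agent.Helper19_Horton
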