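import Pool.Agent.Helper19_Horton.Room

/-!
No patterned Room square has side 3, 5 or 9.
-/

namespace Pool.Agent.Helper19_Horton

theorem cyc_iter {n : ℕ} {R : Arr n} (h : IsCyclic n R) (c : ZMod n) (e : Sym2 (Symb n))
    (he : R 0 c = some e) (k : ℕ) :
    R (k : ZMod n) (c + k) = some (e.map (fun s : Symb n => s.map (fun x => x + (k : ZMod n)))) := by
  induction k with
  | zero =>
    simp only [Nat.cast_zero, add_zero]
    rw [he]
    congr 1
    induction e using Sym2.ind with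
    | _ a b => rcases a with _ | a <;> rcases b with _ | b <;> simp
  | succ k ih =>
    have := h _ _ _ ih
    rw [Nat.cast_succ, ← add_assoc, this]
    congr 1
    induction e using Sym2.ind with
    | _ a b => rcases a with _ | a <;> rcases b with _ | b <;> simp [succSymb, add_assoc]

theorem cyc_shift {n : ℕ} [NeZero n] {R : Arr n} (h : IsCyclic n R) (c : ZMod n)
    (e : Sym2 (Symb n)) (he : R 0 c = some e) (z : ZMod n) :
    R z (c + z) = some (e.map (fun s : Symb n => s.map (fun x => x + z))) := by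
  have := cyc_iter h c e he z.val
  simpa using this

/-- the columns of the pairs of row `0` -/
theorem columns {n : ℕ} [NeZero n] {R : Arr n} (h : IsPatterned n R) :
    ∃ (c0 : ZMod n) (c : ℕ → ZMod n),
      R 0 c0 = some s(none, some 0) ∧
      (∀ k : ℕ, 1 ≤ k → 2 * k + 1 ≤ n →
        R 0 (c k) = some s(some (k : ZMod n), some (-(k : ZMod n)))) := by
  obtain ⟨c0, hc0⟩ := (h.rowZero _).mpr (Or.inl rfl)
  have : ∀ k : ℕ, ∃ c : ZMod n, 1 ≤ k → 2 * k + 1 ≤ n →
      R 0 c = some s(some (k : ZMod n), some (-(k : ZMod n))) := by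
    intro k
    by_cases hk : 1 ≤ k ∧ 2 * k + 1 ≤ n
    · obtain ⟨c, hc⟩ := (h.rowZero _).mpr (Or.inr ⟨k, hk.1, hk.2, rfl⟩)
      exact ⟨c, fun _ _ => hc⟩
    · exact ⟨0, fun h1 h2 => absurd ⟨h1, h2⟩ hk⟩
  choose c hc using this
  exact ⟨c0, c, hc0, hc⟩

/-- Column `0`: two cells `(−a,0)`, `(−b,0)` sharing a symbol coincide. -/
theorem no_share {n : ℕ} [NeZero n] {R : Arr n} (h : IsPatterned n R) (a b : ZMod n)
    (e f : Sym2 (Symb n)) (ha : R 0 a = some e) (hb : R 0 b = some f) (v : ZMod n)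
    (h1 : (some v : Symb n) ∈ e.map (fun s : Symb n => s.map (fun x => x + (-a))))
    (h2 : (some v : Symb n) ∈ f.map (fun s : Symb n => s.map (fun x => x + (-b)))) : e = f := by
  have ea := cyc_shift h.cyclic a e ha (-a)
  have eb := cyc_shift h.cyclic b f hb (-b)
  rw [add_neg_cancel] at ea eb
  have := (h.room.col 0 (some v)).unique ⟨_, ea, h1⟩ ⟨_, eb, h2⟩
  have hab : a = b := neg_injective this
  subst hab
  rw [ha] at hb
  exact Option.some_injective _ hb

theorem not_three : ¬ ∃ R : Arr 3, IsPatterned 3 R := by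
  rintro ⟨R, h⟩
  obtain ⟨c0, c, h0, hc⟩ := columns h
  have h1 := hc 1 (by norm_num) (by norm_num)
  set c1 := c 1
  have key : ∀ x c1 c0: ZMod 3, c0 ≠ c1 → 0 + -c0 ≠ 1 + -c1 → 0 + -c0 ≠ -1 + -c1 → False := by
    decide
  apply key 0 c1 c0
  · intro he
    rw [he, h1] at h0
    simp at h0
  · intro he
    have := no_share h c0 c1 _ _ h0 h1 (0 + -c0) (by simp) (by rw [he]; simp)
    simp at this
  · intro he
    have := no_share h c0 c1 _ _ h0 h1 (0 + -c0) (by simp) (by rw [he]; simp)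
    simp at this

/-- numerical consequences for one pair and the `∞` cell -/
theorem rel_inf {n : ℕ} [NeZero n] {R : Arr n} (h : IsPatterned n R) {c0 c1 : ZMod n} {k : ℕ}
    (h0 : R 0 c0 = some s(none, some 0))
    (h1 : R 0 c1 = some s(some (k : ZMod n), some (-(k : ZMod n)))) :
    c1 - c0 ≠ 0 ∧ (k : ZMod n) - (c1 - c0) ≠ 0 ∧ -(k : ZMod n) - (c1 - c0) ≠ 0 := by
  refine ⟨?_, ?_, ?_⟩
  · intro he
    rw [sub_eq_zero] at he
    rw [he, h0] at h1
    simp at h1
  · intro he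
    have he' : (k : ZMod n) + -c1 = -c0 := by linear_combination he
    have := no_share h c0 c1 _ _ h0 h1 (-c0) (by simp) (by rw [← he']; simp)
    simp at this
  · intro he
    have he' : -(k : ZMod n) + -c1 = -c0 := by linear_combination he
    have := no_share h c0 c1 _ _ h0 h1 (-c0) (by simp) (by rw [← he']; simp)
    simp at this

/-- numerical consequences for two pairs -/
theorem rel_two {n : ℕ} [NeZero n] {R : Arr n} (h : IsPatterned n R) {c0 c1 c2 : ZMod n} {k l : ℕ}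
    (hkl : (s(some (k : ZMod n), some (-(k : ZMod n))) : Sym2 (Symb n)) ≠
      s(some (l : ZMod n), some (-(l : ZMod n))))
    (h1 : R 0 c1 = some s(some (k : ZMod n), some (-(k : ZMod n))))
    (h2 : R 0 c2 = some s(some (l : ZMod n), some (-(l : ZMod n)))) :
    (c1 - c0) ≠ (c2 - c0) ∧
    (k : ZMod n) - (c1 - c0) ≠ (l : ZMod n) - (c2 - c0) ∧
    (k : ZMod n) - (c1 - c0) ≠ -(l : ZMod n) - (c2 - c0) ∧
    -(k : ZMod n) - (c1 - c0) ≠ (l : ZMod n) - (c2 - c0) ∧
    -(k : ZMod n) - (c1 - c0) ≠ -(l : ZMod n) - (c2 - c0) := by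
  refine ⟨?_, ?_, ?_, ?_, ?_⟩
  · intro he
    have he' : c1 = c2 := by linear_combination he
    rw [he', h2] at h1
    exact hkl (Option.some_injective _ h1.symm)
  · intro he
    have he' : (k : ZMod n) + -c1 = (l : ZMod n) + -c2 := by linear_combination he
    exact hkl (no_share h c1 c2 _ _ h1 h2 ((k : ZMod n) + -c1) (by simp) (by rw [he']; simp))
  · intro he
    have he' : (k : ZMod n) + -c1 = -(l : ZMod n) + -c2 := by linear_combination he
    exact hkl (no_share h c1 c2 _ _ h1 h2 ((k : ZMod n) + -c1) (by simp) (by rw [he']; simp))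
  · intro he
    have he' : -(k : ZMod n) + -c1 = (l : ZMod n) + -c2 := by linear_combination he
    exact hkl (no_share h c1 c2 _ _ h1 h2 (-(k : ZMod n) + -c1) (by simp) (by rw [he']; simp))
  · intro he
    have he' : -(k : ZMod n) + -c1 = -(l : ZMod n) + -c2 := by linear_combination he
    exact hkl (no_share h c1 c2 _ _ h1 h2 (-(k : ZMod n) + -c1) (by simp) (by rw [he']; simp))

theorem not_five : ¬ ∃ R : Arr 5, IsPatterned 5 R := by
  rintro ⟨R, h⟩
  obtain ⟨c0, c, h0, hc⟩ := columns h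
  have h1 := hc 1 (by norm_num) (by norm_num)
  have h2 := hc 2 (by norm_num) (by norm_num)
  have key : ∀ a b : ZMod 5, (a ≠ 0 ∧ ((1 : ℕ) : ZMod 5) - a ≠ 0 ∧ -((1 : ℕ) : ZMod 5) - a ≠ 0) →
      (b ≠ 0 ∧ ((2 : ℕ) : ZMod 5) - b ≠ 0 ∧ -((2 : ℕ) : ZMod 5) - b ≠ 0) →
      (a ≠ b ∧ ((1 : ℕ) : ZMod 5) - a ≠ ((2 : ℕ) : ZMod 5) - b ∧
        ((1 : ℕ) : ZMod 5) - a ≠ -((2 : ℕ) : ZMod 5) - b ∧
        -((1 : ℕ) : ZMod 5) - a ≠ ((2 : ℕ) : ZMod 5) - b ∧
        -((1 : ℕ) : ZMod 5) - a ≠ -((2 : ℕ) : ZMod 5) - b) → False := by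
    decide
  exact key _ _ (rel_inf h h0 h1) (rel_inf h h0 h2) (rel_two h (by decide) h1 h2)

def PI (k : ℕ) (a : ZMod 9) : Prop :=
  a ≠ 0 ∧ (k : ZMod 9) - a ≠ 0 ∧ -(k : ZMod 9) - a ≠ 0

def PT (k l : ℕ) (a b : ZMod 9) : Prop :=
  a ≠ b ∧ (k : ZMod 9) - a ≠ (l : ZMod 9) - b ∧ (k : ZMod 9) - a ≠ -(l : ZMod 9) - b ∧
    -(k : ZMod 9) - a ≠ (l : ZMod 9) - b ∧ -(k : ZMod 9) - a ≠ -(l : ZMod 9) - b

instance (k : ℕ) (a : ZMod 9) : Decidable (PI k a) := by
  unfold PI; infer_instance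

instance (k l : ℕ) (a b : ZMod 9) : Decidable (PT k l a b) := by
  unfold PT; infer_instance

def K3 (a b d : ZMod 9) : Prop :=
  ∀ f : ZMod 9, PI 4 f → PT 1 4 a f → PT 2 4 b f → PT 3 4 d f → False

instance (a b d : ZMod 9) : Decidable (K3 a b d) := by
  unfold K3; infer_instance

def K2 (a b : ZMod 9) : Prop := ∀ d : ZMod 9, PI 3 d → PT 1 3 a d → PT 2 3 b d → K3 a b d

instance (a b : ZMod 9) : Decidable (K2 a b) := by
  unfold K2; infer_instance

def K1 (a : ZMod 9) : Prop := ∀ b : ZMod 9, PI 2 b → PT 1 2 a b → K2 a b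

instance (a : ZMod 9) : Decidable (K1 a) := by
  unfold K1; infer_instance

theorem key_nine : ∀ a : ZMod 9, PI 1 a → K1 a := by
  decide +kernel

theorem not_nine : ¬ ∃ R : Arr 9, IsPatterned 9 R := by
  rintro ⟨R, h⟩
  obtain ⟨c0, c, h0, hc⟩ := columns h
  have h1 := hc 1 (by norm_num) (by norm_num)
  have h2 := hc 2 (by norm_num) (by norm_num)
  have h3 := hc 3 (by norm_num) (by norm_num)
  have h4 := hc 4 (by norm_num) (by norm_num)
  exact key_nine _ (rel_inf h h0 h1) _ (rel_inf h h0 h2) (rel_two h (by decide) h1 h2) _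
    (rel_inf h h0 h3) (rel_two h (by decide) h1 h3) (rel_two h (by decide) h2 h3) _
    (rel_inf h h0 h4) (rel_two h (by decide) h1 h4) (rel_two h (by decide) h2 h4)
    (rel_two h (by decide) h3 h4)

end Pool.Agent.Helper19_Horton
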