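import Pool.Agent.Helper19_Horton.Core
import Pool.Agent.Helper19_Horton.Defs

/-!
The patterned Room square built from a strong starter.
-/

namespace Pool.Agent.Helper19_Horton

open Classical in
/-- the square of a strong starter -/
noncomputable def sq {n : ℕ} (φ : ZMod n → ZMod n) : Arr n := fun r j =>
  if r = j then some s(none, some j)
  else if h : ∃ x, x + φ x = 2 * (r - j) then some s(some (h.choose + j), some (φ h.choose + j))
  else none

theorem sq_iff {n : ℕ} {φ : ZMod n → ZMod n} (h0 : φ 0 = 0) (hinv : ∀ x, φ (φ x) = x)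
    (hs : ∀ x z, x + φ x = z + φ z → z = x ∨ z = φ x) (h2 : IsUnit (2 : ZMod n))
    (r j : ZMod n) (e : Sym2 (Symb n)) :
    sq φ r j = some e ↔ (r = j ∧ e = s(none, some j)) ∨
      ∃ x, x ≠ 0 ∧ x + φ x = 2 * (r - j) ∧ e = s(some (x + j), some (φ x + j)) := by
  constructor
  · intro h
    unfold sq at h
    split_ifs at h with h1 h3
    · left; exact ⟨h1, by simpa using h.symm⟩
    · right
      refine ⟨h3.choose, ?_, h3.choose_spec, by simpa using h.symm⟩
      intro hz
      have := h3.choose_spec
      rw [hz, h0] at this
      have h4 : (2 : ZMod n) * (r - j) = 2 * 0 := by rw [← this]; ring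
      have := h2.mul_left_cancel h4
      exact h1 (sub_eq_zero.mp this)
  · rintro (⟨rfl, rfl⟩ | ⟨x, hx, hxr, rfl⟩)
    · unfold sq; simp
    · have hne : r ≠ j := by
        rintro rfl
        have h4 : x + φ x = 0 + φ 0 := by rw [hxr, h0]; ring
        rcases hs _ _ h4 with h5 | h5
        · exact hx h5.symm
        · apply hx; rw [← hinv x, ← h5, h0]
      unfold sq
      rw [if_neg hne]
      have hex : ∃ x, x + φ x = 2 * (r - j) := ⟨x, hxr⟩
      rw [dif_pos hex]
      have h5 := hs _ _ (hex.choose_spec.trans hxr.symm)
      rcases h5 with h5 | h5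
      · rw [← h5]
      · rw [h5, hinv, Sym2.eq_swap]

theorem patterned_of_strongStarter {n : ℕ} (hn : Odd n) (h : HasStrongStarter n) :
    ∃ R : Arr n, IsPatterned n R := by
  obtain ⟨φ, h0, hinv, hne, hinj, hs⟩ := h
  haveI : NeZero n := ⟨by rintro rfl; simp at hn⟩
  have h2 : IsUnit (2 : ZMod n) := by
    have : IsUnit ((2 : ℕ) : ZMod n) := by
      rw [ZMod.isUnit_iff_coprime]
      exact (Nat.coprime_two_left).mpr hn
    simpa using this
  obtain ⟨u, hu⟩ := h2.exists_right_inv
  have iff := fun r j e => sq_iff h0 hinv hs h2 r j e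
  have hsurj : Function.Surjective (fun x => x - φ x) := Finite.surjective_of_injective hinj
  have hφ0 : ∀ x, φ x = 0 → x = 0 := fun x hx => by rw [← hinv x, hx, h0]
  have c2 : ∀ a b : ZMod n, 2 * a = 2 * b → a = b := fun a b hab => h2.mul_left_cancel hab
  refine ⟨sq φ, ⟨?_, ?_, ?_, ?_⟩, ?_, ?_⟩
  · intro r c e he
    rcases (iff r c e).mp he with ⟨_, rfl⟩ | ⟨x, hx, _, rfl⟩
    · simp
    · simp only [Sym2.mk_isDiag_iff, Option.some.injEq, add_left_inj]
      exact fun h => hne x hx h.symm
  · -- rows
    intro r s
    rcases s with _ | v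
    · refine ⟨r, ⟨s(none, some r), (iff _ _ _).mpr (Or.inl ⟨rfl, rfl⟩), by simp⟩, ?_⟩
      rintro c ⟨e, he, hm⟩
      rcases (iff r c e).mp he with ⟨rfl, _⟩ | ⟨x, _, _, rfl⟩
      · rfl
      · simp at hm
    · obtain ⟨x, hx⟩ := hsurj (2 * (v - r))
      simp only at hx
      refine ⟨v - x, ?_, ?_⟩
      · by_cases hx0 : x = 0
        · subst hx0
          rw [h0] at hx
          have : v - r = 0 := c2 _ _ (by rw [← hx]; ring)
          have hvr : v = r := sub_eq_zero.mp this
          subst hvr
          refine ⟨s(none, some (v - 0)), (iff _ _ _).mpr (Or.inl ⟨by ring, rfl⟩), by simp⟩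
        · refine ⟨s(some (x + (v - x)), some (φ x + (v - x))),
            (iff _ _ _).mpr (Or.inr ⟨x, hx0, ?_, rfl⟩), by simp⟩
          linear_combination (-1 : ZMod n) * hx
      · rintro c ⟨e, he, hm⟩
        rcases (iff r c e).mp he with ⟨rfl, rfl⟩ | ⟨x', hx', hx'', rfl⟩
        · have hv : v = r := by simpa using hm
          subst hv
          have : x - φ x = 0 - φ 0 := by rw [hx, h0]; ring
          have hx0 : x = 0 := hinj this
          rw [hx0]; ring
        · have hm' : v = x' + c ∨ v = φ x' + c := by simpa using hm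
          rcases hm' with hv | hv
          · have : x' - φ x' = x - φ x := by rw [hx, hv]; linear_combination (-1 : ZMod n) * hx''
            have := hinj this
            rw [← this, hv]; ring
          · have : φ x' - φ (φ x') = x - φ x := by
              rw [hx, hv, hinv]; linear_combination (-1 : ZMod n) * hx''
            have := hinj this
            rw [← this, hv]; ring
  · -- columns
    intro c s
    rcases s with _ | v
    · refine ⟨c, ⟨s(none, some c), (iff _ _ _).mpr (Or.inl ⟨rfl, rfl⟩), by simp⟩, ?_⟩
      rintro r ⟨e, he, hm⟩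
      rcases (iff r c e).mp he with ⟨rfl, _⟩ | ⟨x, _, _, rfl⟩
      · rfl
      · simp at hm
    · refine ⟨c + u * ((v - c) + φ (v - c)), ?_, ?_⟩
      · by_cases hx0 : v - c = 0
        · refine ⟨s(none, some c), (iff _ _ _).mpr (Or.inl ⟨?_, rfl⟩), ?_⟩
          · rw [hx0, h0]; ring
          · have : v = c := sub_eq_zero.mp hx0
            simp [this]
        · refine ⟨_, (iff _ _ _).mpr (Or.inr ⟨v - c, hx0, ?_, rfl⟩), by simp⟩
          linear_combination (-(v - c + φ (v - c))) * hu
      · rintro r ⟨e, he, hm⟩
        rcases (iff r c e).mp he with ⟨rfl, rfl⟩ | ⟨x', hx', hx'', rfl⟩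
        · have hv : v = r := by simpa using hm
          subst hv
          simp [h0]
        · have hm' : v = x' + c ∨ v = φ x' + c := by simpa using hm
          have e1 : (v - c) + φ (v - c) = x' + φ x' := by
            rcases hm' with hv | hv
            · rw [hv, add_sub_cancel_right]
            · rw [hv, add_sub_cancel_right, hinv, add_comm]
          rw [e1]
          apply c2
          linear_combination (-1 : ZMod n) * hx'' - (x' + φ x') * hu
  · -- pairs
    intro e
    induction e using Sym2.ind with
    | _ a b =>
      intro hab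
      have hab' : a ≠ b := by simpa using hab
      have main : ∀ w v : ZMod n, w ≠ v →
          ∃! p : ZMod n × ZMod n, sq φ p.1 p.2 = some s(some w, some v) := by
        intro w v hwv
        obtain ⟨x, hx⟩ := hsurj (w - v)
        simp only at hx
        have hx0 : x ≠ 0 := by
          rintro rfl
          rw [h0, sub_zero] at hx
          exact hwv (sub_eq_zero.mp hx.symm)
        refine ⟨((w - x) + u * (x + φ x), w - x), ?_, ?_⟩
        · refine (iff _ _ _).mpr (Or.inr ⟨x, hx0, ?_, ?_⟩)
          · linear_combination (-(x + φ x)) * hu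
          · have e1 : x + (w - x) = w := by ring
            have e2 : φ x + (w - x) = v := by linear_combination (-1 : ZMod n) * hx
            rw [e1, e2]
        · rintro ⟨r, j⟩ hp
          simp only at hp
          rcases (iff r j _).mp hp with ⟨rfl, h5⟩ | ⟨x', hx', hx'', h5⟩
          · simp at h5
          · have h6 : (w = x' + j ∧ v = φ x' + j) ∨ (w = φ x' + j ∧ v = x' + j) := by
              simpa using h5
            rcases h6 with ⟨h6, h7⟩ | ⟨h6, h7⟩
            · have : x' - φ x' = x - φ x := by rw [hx, h6, h7]; ring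
              have hxx := hinj this
              subst hxx
              have hj : j = w - x' := by rw [h6]; ring
              have hr : r = (w - x') + u * (x' + φ x') := by
                apply c2
                linear_combination (-1 : ZMod n) * hx'' - (x' + φ x') * hu + 2 * hj
              rw [hr, hj]
            · have : φ x' - φ (φ x') = x - φ x := by rw [hx, h6, h7, hinv]; ring
              have hxx : φ x' = x := hinj this
              have hj : j = w - x := by rw [h6, ← hxx]; ring
              have hx3 : x + φ x = 2 * (r - j) := by rw [← hx'', ← hxx, hinv, add_comm]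
              have hr : r = (w - x) + u * (x + φ x) := by
                apply c2
                linear_combination (-1 : ZMod n) * hx3 - (x + φ x) * hu + 2 * hj
              rw [hr, hj]
      have main2 : ∀ v : ZMod n,
          ∃! p : ZMod n × ZMod n, sq φ p.1 p.2 = some s(none, some v) := by
        intro v
        refine ⟨(v, v), (iff _ _ _).mpr (Or.inl ⟨rfl, rfl⟩), ?_⟩
        rintro ⟨r, j⟩ hp
        simp only at hp
        rcases (iff r j _).mp hp with ⟨rfl, h5⟩ | ⟨x', hx', hx'', h5⟩
        · have : v = r := by simpa using h5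
          rw [this]
        · simp at h5
      rcases a with _ | a <;> rcases b with _ | b
      · exact absurd rfl hab'
      · exact main2 b
      · rw [Sym2.eq_swap]; exact main2 a
      · exact main a b (fun h => hab' (by rw [h]))
  · -- cyclic
    intro r c e he
    rcases (iff r c e).mp he with ⟨rfl, rfl⟩ | ⟨x, hx, hxr, rfl⟩
    · exact (iff _ _ _).mpr (Or.inl ⟨rfl, by simp [succSymb]⟩)
    · refine (iff _ _ _).mpr (Or.inr ⟨x, hx, by rw [hxr]; ring, ?_⟩)
      simp [succSymb, add_assoc]
  · -- row zero
    intro e
    have hval : ∀ z : ZMod n, z ≠ 0 → ∃ k : ℕ, 1 ≤ k ∧ 2 * k + 1 ≤ n ∧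
        (z = (k : ZMod n) ∨ z = -(k : ZMod n)) := by
      intro z hz
      have h1 : z.val < n := ZMod.val_lt z
      have h3 : z.val ≠ 0 := by rwa [Ne, ZMod.val_eq_zero]
      obtain ⟨q, hq⟩ := hn
      by_cases h4 : 2 * z.val + 1 ≤ n
      · exact ⟨z.val, by omega, h4, Or.inl (by simp)⟩
      · refine ⟨n - z.val, by omega, by omega, Or.inr ?_⟩
        rw [Nat.cast_sub h1.le]
        simp
    constructor
    · rintro ⟨c, hc⟩
      rcases (iff 0 c e).mp hc with ⟨rfl, rfl⟩ | ⟨x, hx, hxr, rfl⟩
      · left; rfl
      · right
        have e1 : φ x + c = -(x + c) := by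
          linear_combination hxr
        have e2 : x + c ≠ 0 := by
          intro h3
          rw [h3, neg_zero] at e1
          have : φ x = x := by
            have : x + c = φ x + c := by rw [h3, e1]
            exact (add_right_cancel this).symm
          exact hne x hx this
        obtain ⟨k, hk1, hk2, hk3⟩ := hval _ e2
        refine ⟨k, hk1, hk2, ?_⟩
        rw [e1]
        rcases hk3 with h3 | h3
        · rw [h3]
        · rw [h3, neg_neg, Sym2.eq_swap]
    · rintro (rfl | ⟨k, hk1, hk2, rfl⟩)
      · exact ⟨0, (iff _ _ _).mpr (Or.inl ⟨rfl, rfl⟩)⟩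
      · obtain ⟨x, hx⟩ := hsurj (2 * (k : ZMod n))
        simp only at hx
        have hk : (k : ZMod n) ≠ 0 := by
          rw [Ne, ZMod.natCast_eq_zero_iff]
          intro h3
          exact absurd (Nat.le_of_dvd (by omega) h3) (by omega)
        have hx0 : x ≠ 0 := by
          rintro rfl
          rw [h0, sub_zero] at hx
          exact hk (c2 _ _ (by rw [← hx]; ring))
        refine ⟨k - x, (iff _ _ _).mpr (Or.inr ⟨x, hx0, ?_, ?_⟩)⟩
        · linear_combination (-1 : ZMod n) * hx
        · have e1 : x + ((k : ZMod n) - x) = k := by ring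
          have e2 : φ x + ((k : ZMod n) - x) = -k := by linear_combination (-1 : ZMod n) * hx
          rw [e1, e2]

end Pool.Agent.Helper19_Horton
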