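import Pool.Agent.Helper19_Horton.Core

/-!
A fast verified checker for explicit strong starters.
-/

namespace Pool.Agent.Helper19_Horton

def nodupMask : List ℕ → ℕ → Bool
  | [], _ => true
  | a :: l, mask => !(Nat.testBit mask a) && nodupMask l (mask ||| (1 <<< a))

theorem nodupMask_spec : ∀ (l : List ℕ) (mask : ℕ), nodupMask l mask = true →
    l.Nodup ∧ ∀ a ∈ l, Nat.testBit mask a = false
  | [], _, _ => ⟨List.nodup_nil, by simp⟩
  | a :: l, mask, h => by
    unfold nodupMask at h
    rw [Bool.and_eq_true, Bool.not_eq_true'] at h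
    obtain ⟨h1, h2⟩ := nodupMask_spec l _ h.2
    have h3 : ∀ b ∈ l, Nat.testBit mask b = false ∧ b ≠ a := by
      intro b hb
      have := h2 b hb
      rw [Nat.testBit_or, Bool.or_eq_false_iff] at this
      refine ⟨this.1, ?_⟩
      rintro rfl
      have h4 := this.2
      rw [Nat.testBit_shiftLeft] at h4
      simp at h4
    refine ⟨List.nodup_cons.mpr ⟨fun hm => (h3 a hm).2 rfl, h1⟩, ?_⟩
    intro b hb
    rcases List.mem_cons.mp hb with rfl | hb
    · exact h.1
    · exact (h3 b hb).1

def pairOk (n : ℕ) (p : ℕ × ℕ) : Bool :=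
  Nat.blt 0 p.1 && Nat.blt p.1 p.2 && Nat.blt p.2 n && !(Nat.beq (p.1 + p.2) n)

def checkSmall (n : ℕ) (l : List (ℕ × ℕ)) : Bool :=
  l.all (pairOk n) && Nat.beq (2 * l.length + 1) n &&
  nodupMask (l.map (fun p => p.1) ++ l.map (fun p => p.2)) 0 &&
  nodupMask (l.map (fun p => p.2 - p.1) ++ l.map (fun p => n - (p.2 - p.1))) 0 &&
  nodupMask (l.map (fun p => (p.1 + p.2) % n)) 0

theorem map_nodup_inj {α : Type} {l : List α} {f : α → ℕ} (h : (l.map f).Nodup)
    (i j : Fin l.length) (hij : f l[i] = f l[j]) : i = j := by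
  have h1 := (List.nodup_iff_injective_get.mp h)
  have h2 : (⟨i, by simp⟩ : Fin (l.map f).length) = ⟨j, by simp⟩ := by
    apply h1
    simpa using hij
  exact Fin.ext (by simpa using h2)

theorem checkSmall_sound {n : ℕ} {l : List (ℕ × ℕ)} (h : checkSmall n l = true) :
    HasStrongStarter n := by
  unfold checkSmall at h
  simp only [Bool.and_eq_true, List.all_eq_true, Nat.beq_eq] at h
  obtain ⟨⟨⟨⟨h1, h2⟩, h3⟩, h4⟩, h5⟩ := h
  have g3 := (nodupMask_spec _ _ h3).1
  have g4 := (nodupMask_spec _ _ h4).1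
  have g5 := (nodupMask_spec _ _ h5).1
  rw [List.nodup_append] at g3 g4
  obtain ⟨g31, g32, g33⟩ := g3
  obtain ⟨g41, g42, g43⟩ := g4
  have hp : ∀ i : Fin l.length, 0 < l[i].1 ∧ l[i].1 < l[i].2 ∧ l[i].2 < n ∧
      l[i].1 + l[i].2 ≠ n := by
    intro i
    have := h1 l[i] (List.getElem_mem _)
    unfold pairOk at this
    simp only [Bool.and_eq_true, Nat.blt_eq, Bool.not_eq_true', ← Bool.not_eq_true,
      Nat.beq_eq] at this
    tauto
  have hm1 : ∀ i : Fin l.length, l[i].1 ∈ l.map (fun p => p.1) := fun i =>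
    List.mem_map.mpr ⟨l[i], List.getElem_mem _, rfl⟩
  have hm2 : ∀ i : Fin l.length, l[i].2 ∈ l.map (fun p => p.2) := fun i =>
    List.mem_map.mpr ⟨l[i], List.getElem_mem _, rfl⟩
  have hm3 : ∀ i : Fin l.length, l[i].2 - l[i].1 ∈ l.map (fun p => p.2 - p.1) := fun i =>
    List.mem_map.mpr ⟨l[i], List.getElem_mem _, rfl⟩
  have hm4 : ∀ i : Fin l.length, n - (l[i].2 - l[i].1) ∈ l.map (fun p => n - (p.2 - p.1)) :=
    fun i => List.mem_map.mpr ⟨l[i], List.getElem_mem _, rfl⟩
  have hs5 : ∀ i j : Fin l.length, (l[i].1 + l[i].2) % n = (l[j].1 + l[j].2) % n → i = j :=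
    fun i j hij => map_nodup_inj g5 i j hij
  apply hasStrongStarter_of_int (ι := Fin l.length) (fun i => (l[i].1 : ℤ))
    (fun i => (l[i].2 : ℤ))
  · simpa using h2
  · intro i; have := hp i; exact_mod_cast this.1
  · intro i; have := hp i; exact_mod_cast this.2.1
  · intro i; have := hp i; exact_mod_cast this.2.2.1
  · intro i j hij
    exact map_nodup_inj g31 i j (by exact_mod_cast hij)
  · intro i j hij
    exact map_nodup_inj g32 i j (by exact_mod_cast hij)
  · intro i j hij
    exact g33 _ (hm1 i) _ (hm2 j) (by exact_mod_cast hij)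
  · intro i j hij
    have hi := hp i
    have hj := hp j
    refine map_nodup_inj g41 i j ?_
    simp only at hij
    show l[i].2 - l[i].1 = l[j].2 - l[j].1
    omega
  · intro i j hij
    have hi := hp i
    have hj := hp j
    simp only at hij
    refine g43 _ (hm3 i) _ (hm4 j) ?_
    omega
  · intro i j hij
    simp only at hij
    have : l[i].1 + l[i].2 = l[j].1 + l[j].2 := by exact_mod_cast hij
    exact hs5 i j (by rw [this])
  · intro i j hij
    simp only at hij
    have h6 : l[i].1 + l[i].2 = l[j].1 + l[j].2 + n := by exact_mod_cast hij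
    have h7 : i = j := hs5 i j (by rw [h6, Nat.add_mod_right])
    subst h7
    have := hp i
    omega
  · intro i hi
    have h6 := (hp i).2.2.2
    simp only at hi
    exact h6 (by exact_mod_cast hi)

end Pool.Agent.Helper19_Horton
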