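import Pool.Agent.Helper19_Horton.Small

/-!
Explicit strong starters for small orders.
-/

namespace Pool.Agent.Helper19_Horton

def sm7 : List (ℕ × ℕ) := [
  (1, 5), (2, 3), (4, 6)]

theorem sm7_ok : checkSmall 7 sm7 = true := by
  decide +kernel

def sm11 : List (ℕ × ℕ) := [
  (1, 7), (2, 5), (3, 10), (4, 6), (8, 9)]

theorem sm11_ok : checkSmall 11 sm11 = true := by
  decide +kernel

def sm13 : List (ℕ × ℕ) := [
  (1, 10), (2, 8), (3, 4), (5, 7), (6, 11), (9, 12)]

theorem sm13_ok : checkSmall 13 sm13 = true := by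
  decide +kernel

def sm15 : List (ℕ × ℕ) := [
  (1, 6), (2, 9), (3, 14), (4, 10), (5, 7), (8, 11), (12, 13)]

theorem sm15_ok : checkSmall 15 sm15 = true := by
  decide +kernel

def sm17 : List (ℕ × ℕ) := [
  (1, 10), (2, 12), (3, 15), (4, 6), (5, 16), (7, 8), (9, 13), (11, 14)]

theorem sm17_ok : checkSmall 17 sm17 = true := by
  decide +kernel

def sm19 : List (ℕ × ℕ) := [
  (1, 4), (2, 11), (3, 14), (5, 18), (6, 10), (7, 8), (9, 16), (12, 17), (13, 15)]

theorem sm19_ok : checkSmall 19 sm19 = true := by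
  decide +kernel

def sm21 : List (ℕ × ℕ) := [
  (1, 19), (2, 15), (3, 13), (4, 9), (5, 7), (6, 18), (8, 14), (10, 17), (11, 12), (16, 20)]

theorem sm21_ok : checkSmall 21 sm21 = true := by
  decide +kernel

def sm23 : List (ℕ × ℕ) := [
  (1, 19), (2, 17), (3, 13), (4, 18), (5, 7), (6, 12), (8, 9), (10, 21), (11, 14), (15, 22),
  (16, 20)]

theorem sm23_ok : checkSmall 23 sm23 = true := by
  decide +kernel

def sm25 : List (ℕ × ℕ) := [
  (1, 16), (2, 9), (3, 17), (4, 8), (5, 21), (6, 12), (7, 20), (10, 13), (11, 19), (14, 15),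
  (18, 23), (22, 24)]

theorem sm25_ok : checkSmall 25 sm25 = true := by
  decide +kernel

def sm27 : List (ℕ × ℕ) := [
  (1, 6), (2, 22), (3, 19), (4, 25), (5, 20), (7, 21), (8, 10), (9, 26), (11, 12), (13, 17),
  (14, 23), (15, 18), (16, 24)]

theorem sm27_ok : checkSmall 27 sm27 = true := by
  decide +kernel

def sm29 : List (ℕ × ℕ) := [
  (1, 23), (2, 20), (3, 8), (4, 10), (5, 18), (6, 14), (7, 27), (9, 24), (11, 28), (12, 13),
  (15, 17), (16, 26), (19, 22), (21, 25)]

theorem sm29_ok : checkSmall 29 sm29 = true := by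
  decide +kernel

def sm31 : List (ℕ × ℕ) := [
  (1, 10), (2, 16), (3, 6), (4, 28), (5, 15), (7, 26), (8, 9), (11, 27), (12, 25), (13, 17),
  (14, 20), (18, 29), (19, 24), (21, 23), (22, 30)]

theorem sm31_ok : checkSmall 31 sm31 = true := by
  decide +kernel

def sm33 : List (ℕ × ℕ) := [
  (1, 15), (2, 4), (3, 23), (5, 22), (6, 14), (7, 25), (8, 17), (9, 31), (10, 13), (11, 18),
  (12, 16), (19, 29), (20, 32), (21, 26), (24, 30), (27, 28)]

theorem sm33_ok : checkSmall 33 sm33 = true := by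
  decide +kernel

def sm35 : List (ℕ × ℕ) := [
  (1, 25), (2, 6), (3, 26), (4, 33), (5, 15), (7, 29), (8, 24), (9, 16), (10, 28), (11, 19),
  (12, 27), (13, 34), (14, 17), (18, 23), (20, 22), (21, 30), (31, 32)]

theorem sm35_ok : checkSmall 35 sm35 = true := by
  decide +kernel

def sm37 : List (ℕ × ℕ) := [
  (1, 27), (2, 6), (3, 13), (4, 7), (5, 14), (8, 32), (9, 25), (10, 16), (11, 28), (12, 17),
  (15, 34), (18, 26), (19, 33), (20, 22), (21, 36), (23, 35), (24, 31), (29, 30)]

theorem sm37_ok : checkSmall 37 sm37 = true := by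
  decide +kernel

def sm39 : List (ℕ × ℕ) := [
  (1, 34), (2, 24), (3, 6), (4, 30), (5, 26), (7, 35), (8, 15), (9, 18), (10, 14), (11, 19),
  (12, 28), (13, 25), (16, 31), (17, 36), (20, 21), (22, 32), (23, 37), (27, 29), (33, 38)]

theorem sm39_ok : checkSmall 39 sm39 = true := by
  decide +kernel

def sm41 : List (ℕ × ℕ) := [
  (1, 5), (2, 33), (3, 20), (4, 30), (6, 25), (7, 13), (8, 10), (9, 37), (11, 40), (12, 15),
  (14, 28), (16, 24), (17, 26), (18, 38), (19, 35), (21, 39), (22, 27), (23, 34), (29, 36),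
  (31, 32)]

theorem sm41_ok : checkSmall 41 sm41 = true := by
  decide +kernel

def sm43 : List (ℕ × ℕ) := [
  (1, 13), (2, 4), (3, 6), (5, 30), (7, 8), (9, 24), (10, 34), (11, 25), (12, 42), (14, 37),
  (15, 23), (16, 26), (17, 22), (18, 35), (19, 40), (20, 36), (21, 27), (28, 39), (29, 33),
  (31, 38), (32, 41)]

theorem sm43_ok : checkSmall 43 sm43 = true := by
  decide +kernel

def sm45 : List (ℕ × ℕ) := [
  (1, 43), (2, 35), (3, 19), (4, 21), (5, 26), (6, 32), (7, 13), (8, 42), (9, 17), (10, 33),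
  (11, 31), (12, 27), (14, 16), (15, 20), (18, 36), (22, 29), (23, 37), (24, 28), (25, 38),
  (30, 39), (34, 44), (40, 41)]

theorem sm45_ok : checkSmall 45 sm45 = true := by
  decide +kernel

def sm47 : List (ℕ × ℕ) := [
  (1, 43), (2, 17), (3, 39), (4, 24), (5, 12), (6, 40), (7, 25), (8, 33), (9, 30), (10, 16),
  (11, 13), (14, 26), (15, 45), (18, 41), (19, 38), (20, 36), (21, 29), (22, 23), (27, 31),
  (28, 42), (32, 35), (34, 44), (37, 46)]

theorem sm47_ok : checkSmall 47 sm47 = true := by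
  decide +kernel

def sm49 : List (ℕ × ℕ) := [
  (1, 44), (2, 25), (3, 16), (4, 13), (5, 15), (6, 41), (7, 24), (8, 27), (9, 37), (10, 43),
  (11, 18), (12, 30), (14, 34), (17, 42), (19, 46), (20, 31), (21, 22), (23, 35), (26, 29),
  (28, 32), (33, 48), (36, 38), (39, 47), (40, 45)]

theorem sm49_ok : checkSmall 49 sm49 = true := by
  decide +kernel

def sm51 : List (ℕ × ℕ) := [
  (1, 5), (2, 39), (3, 45), (4, 24), (6, 11), (7, 20), (8, 35), (9, 28), (10, 43), (12, 27),
  (13, 19), (14, 42), (15, 32), (16, 18), (17, 46), (21, 37), (22, 30), (23, 44), (25, 50),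
  (26, 36), (29, 41), (31, 34), (33, 40), (38, 49), (47, 48)]

theorem sm51_ok : checkSmall 51 sm51 = true := by
  decide +kernel

def sm53 : List (ℕ × ℕ) := [
  (1, 43), (2, 28), (3, 4), (5, 51), (6, 15), (7, 47), (8, 20), (9, 37), (10, 42), (11, 25),
  (12, 31), (13, 48), (14, 45), (16, 49), (17, 33), (18, 22), (19, 36), (21, 26), (23, 52),
  (24, 39), (27, 50), (29, 35), (30, 40), (32, 34), (38, 46), (41, 44)]

theorem sm53_ok : checkSmall 53 sm53 = true := by
  decide +kernel

def sm55 : List (ℕ × ℕ) := [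
  (1, 15), (2, 5), (3, 36), (4, 27), (6, 53), (7, 18), (8, 45), (9, 33), (10, 30), (11, 32),
  (12, 40), (13, 23), (14, 54), (16, 21), (17, 43), (19, 26), (20, 37), (22, 28), (24, 49),
  (25, 41), (29, 48), (31, 44), (34, 35), (38, 47), (39, 51), (42, 46), (50, 52)]

theorem sm55_ok : checkSmall 55 sm55 = true := by
  decide +kernel

def sm57 : List (ℕ × ℕ) := [
  (1, 20), (2, 23), (3, 17), (4, 34), (5, 40), (6, 29), (7, 15), (8, 47), (9, 49), (10, 39),
  (11, 18), (12, 14), (13, 26), (16, 32), (19, 52), (21, 30), (22, 37), (24, 44), (25, 51),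
  (27, 38), (28, 53), (31, 43), (33, 36), (35, 45), (41, 46), (42, 48), (50, 54), (55, 56)]

theorem sm57_ok : checkSmall 57 sm57 = true := by
  decide +kernel

def sm59 : List (ℕ × ℕ) := [
  (1, 37), (2, 3), (4, 53), (5, 47), (6, 33), (7, 14), (8, 45), (9, 42), (10, 55), (11, 23),
  (12, 21), (13, 17), (15, 34), (16, 46), (18, 26), (19, 35), (20, 25), (22, 50), (24, 58),
  (27, 40), (28, 48), (29, 44), (30, 36), (31, 52), (32, 56), (38, 49), (39, 57), (41, 43),
  (51, 54)]

theorem sm59_ok : checkSmall 59 sm59 = true := by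
  decide +kernel

def sm61 : List (ℕ × ℕ) := [
  (1, 15), (2, 18), (3, 37), (4, 40), (5, 53), (6, 35), (7, 17), (8, 38), (9, 30), (10, 28),
  (11, 48), (12, 19), (13, 59), (14, 49), (16, 58), (20, 32), (21, 43), (22, 23), (24, 44),
  (25, 31), (26, 34), (27, 55), (29, 46), (33, 56), (36, 47), (39, 41), (42, 45), (50, 54),
  (51, 60), (52, 57)]

theorem sm61_ok : checkSmall 61 sm61 = true := by
  decide +kernel

def sm63 : List (ℕ × ℕ) := [
  (1, 27), (2, 29), (3, 33), (4, 61), (5, 47), (6, 51), (7, 53), (8, 30), (9, 59), (10, 11),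
  (12, 31), (13, 24), (14, 37), (15, 17), (16, 23), (18, 46), (19, 39), (20, 58), (21, 55),
  (22, 25), (26, 57), (28, 43), (32, 42), (34, 48), (35, 44), (36, 60), (38, 54), (40, 45),
  (41, 49), (50, 62), (52, 56)]

theorem sm63_ok : checkSmall 63 sm63 = true := by
  decide +kernel

def sm65 : List (ℕ × ℕ) := [
  (1, 35), (2, 29), (3, 18), (4, 37), (5, 22), (6, 12), (7, 36), (8, 61), (9, 58), (10, 49),
  (11, 24), (13, 55), (14, 57), (15, 60), (16, 56), (17, 38), (19, 43), (20, 28), (21, 39),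
  (23, 33), (25, 32), (26, 40), (27, 62), (30, 34), (31, 59), (41, 46), (42, 53), (44, 47),
  (45, 64), (48, 50), (51, 52), (54, 63)]

theorem sm65_ok : checkSmall 65 sm65 = true := by
  decide +kernel

def sm67 : List (ℕ × ℕ) := [
  (1, 37), (2, 3), (4, 43), (5, 32), (6, 35), (7, 54), (8, 26), (9, 55), (10, 33), (11, 18),
  (12, 44), (13, 46), (14, 19), (15, 30), (16, 20), (17, 60), (21, 63), (22, 24), (23, 31),
  (25, 51), (27, 39), (28, 50), (29, 45), (34, 53), (36, 66), (38, 47), (40, 57), (41, 52),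
  (42, 56), (48, 58), (49, 62), (59, 65), (61, 64)]

theorem sm67_ok : checkSmall 67 sm67 = true := by
  decide +kernel

def sm69 : List (ℕ × ℕ) := [
  (1, 60), (2, 8), (3, 56), (4, 34), (5, 55), (6, 21), (7, 63), (9, 32), (10, 30), (11, 66),
  (12, 53), (13, 31), (14, 23), (15, 47), (16, 27), (17, 22), (18, 39), (19, 54), (20, 51),
  (24, 64), (25, 68), (26, 59), (28, 52), (29, 37), (33, 45), (35, 57), (36, 61), (38, 65),
  (40, 42), (41, 48), (43, 44), (46, 49), (50, 67), (58, 62)]

theorem sm69_ok : checkSmall 69 sm69 = true := by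
  decide +kernel

def sm71 : List (ℕ × ℕ) := [
  (1, 21), (2, 58), (3, 55), (4, 63), (5, 46), (6, 43), (7, 32), (8, 65), (9, 38), (10, 18),
  (11, 24), (12, 56), (13, 31), (14, 23), (15, 41), (16, 22), (17, 60), (19, 35), (20, 59),
  (25, 30), (26, 66), (27, 49), (28, 61), (29, 36), (33, 37), (34, 70), (39, 62), (40, 51),
  (42, 45), (44, 68), (47, 64), (48, 69), (50, 52), (53, 54), (57, 67)]

theorem sm71_ok : checkSmall 71 sm71 = true := by
  decide +kernel

def sm73 : List (ℕ × ℕ) := [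
  (1, 62), (2, 18), (3, 67), (4, 6), (5, 33), (7, 26), (8, 45), (9, 71), (10, 39), (11, 29),
  (12, 34), (13, 61), (14, 37), (15, 47), (16, 55), (17, 59), (19, 65), (20, 24), (21, 51),
  (22, 23), (25, 72), (27, 40), (28, 38), (30, 68), (31, 64), (32, 49), (35, 56), (36, 60),
  (41, 44), (42, 50), (43, 57), (46, 66), (48, 53), (52, 58), (54, 69), (63, 70)]

theorem sm73_ok : checkSmall 73 sm73 = true := by
  decide +kernel

def sm75 : List (ℕ × ℕ) := [
  (1, 2), (3, 35), (4, 24), (5, 10), (6, 48), (7, 28), (8, 54), (9, 67), (11, 71), (12, 15),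
  (13, 72), (14, 51), (16, 57), (17, 52), (18, 32), (19, 42), (20, 27), (21, 74), (22, 58),
  (23, 47), (25, 38), (26, 73), (29, 31), (30, 36), (33, 60), (34, 64), (37, 49), (39, 70),
  (40, 66), (41, 59), (43, 68), (44, 63), (45, 56), (46, 50), (53, 62), (55, 65), (61, 69)]

theorem sm75_ok : checkSmall 75 sm75 = true := by
  decide +kernel

def sm77 : List (ℕ × ℕ) := [
  (1, 70), (2, 30), (3, 76), (4, 7), (5, 58), (6, 11), (8, 40), (9, 44), (10, 25), (12, 71),
  (13, 36), (14, 62), (15, 53), (16, 27), (17, 23), (18, 48), (19, 65), (20, 72), (21, 34),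
  (22, 32), (24, 45), (26, 60), (28, 54), (29, 73), (31, 43), (33, 74), (35, 52), (37, 56),
  (38, 75), (39, 59), (41, 63), (42, 69), (46, 55), (47, 61), (49, 50), (51, 67), (57, 64),
  (66, 68)]

theorem sm77_ok : checkSmall 77 sm77 = true := by
  decide +kernel

def sm79 : List (ℕ × ℕ) := [
  (1, 9), (2, 55), (3, 14), (4, 29), (5, 60), (6, 52), (7, 41), (8, 58), (10, 20), (11, 15),
  (12, 64), (13, 22), (16, 30), (17, 73), (18, 49), (19, 37), (21, 28), (23, 40), (24, 36),
  (25, 62), (26, 65), (27, 76), (31, 69), (32, 51), (33, 53), (34, 70), (35, 57), (38, 44),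
  (39, 71), (42, 77), (43, 56), (45, 61), (46, 74), (47, 68), (48, 50), (54, 59), (63, 78),
  (66, 67), (72, 75)]

theorem sm79_ok : checkSmall 79 sm79 = true := by
  decide +kernel

def sm81 : List (ℕ × ℕ) := [
  (1, 47), (2, 40), (3, 13), (4, 46), (5, 65), (6, 38), (7, 31), (8, 61), (9, 68), (10, 14),
  (11, 29), (12, 76), (15, 52), (16, 21), (17, 51), (18, 33), (19, 77), (20, 75), (22, 41),
  (23, 30), (24, 78), (25, 34), (26, 66), (27, 63), (28, 44), (32, 80), (35, 49), (36, 42),
  (37, 67), (39, 64), (43, 72), (45, 56), (48, 79), (50, 70), (53, 55), (54, 62), (57, 69),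
  (58, 59), (60, 73), (71, 74)]

theorem sm81_ok : checkSmall 81 sm81 = true := by
  decide +kernel

def sm83 : List (ℕ × ℕ) := [
  (1, 11), (2, 18), (3, 82), (4, 25), (5, 71), (6, 65), (7, 79), (8, 36), (9, 47), (10, 43),
  (12, 54), (13, 32), (14, 77), (15, 66), (16, 63), (17, 40), (19, 48), (20, 60), (21, 26),
  (22, 52), (23, 37), (24, 49), (27, 34), (28, 76), (29, 55), (30, 69), (31, 58), (33, 45),
  (35, 81), (38, 72), (39, 70), (41, 59), (42, 50), (44, 53), (46, 61), (51, 73), (56, 57),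
  (62, 64), (67, 80), (68, 74), (75, 78)]

theorem sm83_ok : checkSmall 83 sm83 = true := by
  decide +kernel

def sm85 : List (ℕ × ℕ) := [
  (1, 55), (2, 52), (3, 74), (4, 15), (5, 23), (6, 63), (7, 79), (8, 68), (9, 71), (10, 30),
  (11, 16), (12, 50), (13, 47), (14, 56), (17, 21), (18, 45), (19, 22), (20, 27), (24, 40),
  (25, 62), (26, 35), (28, 61), (29, 44), (31, 70), (32, 51), (33, 65), (34, 75), (36, 60),
  (37, 58), (38, 78), (39, 69), (41, 53), (42, 48), (43, 72), (46, 82), (49, 57), (54, 80),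
  (59, 81), (64, 66), (67, 84), (73, 83), (76, 77)]

theorem sm85_ok : checkSmall 85 sm85 = true := by
  decide +kernel

def sm87 : List (ℕ × ℕ) := [
  (1, 43), (2, 40), (3, 44), (4, 25), (5, 11), (6, 39), (7, 34), (8, 12), (9, 83), (10, 30),
  (13, 61), (14, 84), (15, 74), (16, 77), (17, 22), (18, 55), (19, 38), (20, 36), (21, 33),
  (23, 57), (24, 27), (26, 69), (28, 80), (29, 65), (31, 60), (32, 54), (35, 82), (37, 51),
  (41, 59), (42, 67), (45, 76), (46, 53), (47, 71), (48, 63), (49, 81), (50, 52), (56, 86),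
  (58, 66), (62, 85), (64, 75), (68, 78), (70, 79), (72, 73)]

theorem sm87_ok : checkSmall 87 sm87 = true := by
  decide +kernel

def sm89 : List (ℕ × ℕ) := [
  (1, 11), (2, 20), (3, 30), (4, 43), (5, 18), (6, 36), (7, 33), (8, 24), (9, 83), (10, 62),
  (12, 31), (13, 80), (14, 74), (15, 87), (16, 57), (17, 49), (19, 52), (21, 55), (22, 34),
  (23, 27), (25, 60), (26, 64), (28, 75), (29, 69), (32, 76), (35, 88), (37, 45), (38, 40),
  (39, 85), (41, 72), (42, 67), (44, 50), (46, 51), (47, 58), (48, 71), (53, 77), (54, 63),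
  (56, 84), (59, 66), (61, 81), (65, 86), (68, 82), (70, 73), (78, 79)]

theorem sm89_ok : checkSmall 89 sm89 = true := by
  decide +kernel

def sm91 : List (ℕ × ℕ) := [
  (1, 78), (2, 73), (3, 46), (4, 55), (5, 42), (6, 59), (7, 87), (8, 13), (9, 69), (10, 80),
  (11, 56), (12, 81), (14, 41), (15, 30), (16, 68), (17, 33), (18, 62), (19, 54), (20, 44),
  (21, 82), (22, 48), (23, 85), (24, 83), (25, 35), (26, 28), (27, 45), (29, 63), (31, 89),
  (32, 74), (34, 40), (36, 53), (37, 50), (38, 88), (39, 75), (43, 66), (47, 72), (49, 61),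
  (51, 79), (52, 71), (57, 60), (58, 67), (64, 65), (70, 77), (76, 84), (86, 90)]

theorem sm91_ok : checkSmall 91 sm91 = true := by
  decide +kernel

def sm93 : List (ℕ × ℕ) := [
  (1, 76), (2, 67), (3, 77), (4, 37), (5, 25), (6, 52), (7, 88), (8, 60), (9, 89), (10, 61),
  (11, 79), (12, 84), (13, 18), (14, 92), (15, 85), (16, 24), (17, 71), (19, 48), (20, 64),
  (21, 78), (22, 54), (23, 50), (26, 30), (27, 28), (29, 45), (31, 90), (32, 43), (33, 39),
  (34, 58), (35, 70), (36, 81), (38, 75), (40, 80), (41, 91), (42, 59), (44, 74), (46, 56),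
  (47, 69), (49, 87), (51, 53), (55, 86), (57, 83), (62, 65), (63, 72), (66, 73), (68, 82)]

theorem sm93_ok : checkSmall 93 sm93 = true := by
  decide +kernel

def sm95 : List (ℕ × ℕ) := [
  (1, 87), (2, 58), (3, 71), (4, 37), (5, 92), (6, 23), (7, 26), (8, 22), (9, 89), (10, 28),
  (11, 43), (12, 54), (13, 48), (14, 79), (15, 40), (16, 88), (17, 68), (18, 44), (19, 83),
  (20, 66), (21, 42), (24, 52), (25, 27), (29, 39), (30, 82), (31, 76), (32, 73), (33, 67),
  (34, 35), (36, 94), (38, 85), (41, 77), (45, 65), (46, 62), (47, 69), (49, 78), (50, 53),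
  (51, 91), (55, 93), (56, 61), (57, 64), (59, 72), (60, 84), (63, 75), (70, 81), (74, 80),
  (86, 90)]

theorem sm95_ok : checkSmall 95 sm95 = true := by
  decide +kernel

def sm97 : List (ℕ × ℕ) := [
  (1, 44), (2, 67), (3, 19), (4, 86), (5, 82), (6, 29), (7, 49), (8, 46), (9, 79), (10, 74),
  (11, 60), (12, 47), (13, 65), (14, 93), (15, 90), (16, 25), (17, 30), (18, 48), (20, 41),
  (21, 77), (22, 27), (23, 94), (24, 58), (26, 32), (28, 36), (31, 55), (33, 70), (34, 87),
  (35, 39), (37, 88), (38, 63), (40, 80), (42, 73), (43, 50), (45, 95), (51, 53), (52, 91),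
  (54, 83), (56, 92), (57, 76), (59, 71), (61, 75), (62, 72), (64, 81), (66, 69), (68, 96),
  (78, 89), (84, 85)]

theorem sm97_ok : checkSmall 97 sm97 = true := by
  decide +kernel

def sm99 : List (ℕ × ℕ) := [
  (1, 79), (2, 70), (3, 28), (4, 47), (5, 44), (6, 29), (7, 36), (8, 40), (9, 80), (10, 61),
  (11, 97), (12, 93), (13, 15), (14, 20), (16, 81), (17, 37), (18, 67), (19, 41), (21, 63),
  (22, 52), (23, 30), (24, 87), (25, 65), (26, 53), (27, 91), (31, 85), (32, 69), (33, 88),
  (34, 95), (35, 68), (38, 48), (39, 54), (42, 89), (43, 57), (45, 46), (49, 75), (50, 96),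
  (51, 92), (55, 64), (56, 59), (58, 77), (60, 72), (62, 78), (66, 71), (73, 90), (74, 98),
  (76, 84), (82, 86), (83, 94)]

theorem sm99_ok : checkSmall 99 sm99 = true := by
  decide +kernel

def sm103 : List (ℕ × ℕ) := [
  (1, 85), (2, 93), (3, 35), (4, 19), (5, 73), (6, 10), (7, 97), (8, 28), (9, 33), (11, 55),
  (12, 89), (13, 43), (14, 68), (15, 62), (16, 98), (17, 20), (18, 49), (21, 72), (22, 23),
  (24, 82), (25, 48), (26, 95), (27, 75), (29, 70), (30, 87), (31, 59), (32, 65), (34, 71),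
  (36, 101), (37, 76), (38, 56), (39, 44), (40, 47), (41, 83), (42, 92), (45, 67), (46, 52),
  (50, 58), (51, 91), (53, 78), (54, 81), (57, 100), (60, 69), (61, 90), (63, 99), (64, 66),
  (74, 84), (77, 88), (79, 96), (80, 94), (86, 102)]

theorem sm103_ok : checkSmall 103 sm103 = true := by
  decide +kernel

def sm105 : List (ℕ × ℕ) := [
  (1, 102), (2, 88), (3, 8), (4, 49), (5, 15), (6, 32), (7, 75), (9, 90), (10, 61), (11, 26),
  (12, 48), (13, 51), (14, 58), (16, 36), (17, 33), (18, 24), (19, 37), (20, 66), (21, 99),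
  (22, 57), (23, 95), (25, 101), (27, 35), (28, 67), (29, 78), (30, 71), (31, 44), (34, 97),
  (38, 55), (39, 82), (40, 87), (41, 50), (42, 92), (43, 74), (45, 77), (46, 98), (47, 81),
  (52, 59), (53, 76), (54, 94), (56, 104), (60, 63), (62, 84), (64, 89), (65, 86), (68, 96),
  (69, 80), (70, 100), (72, 73), (79, 93), (83, 85), (91, 103)]

theorem sm105_ok : checkSmall 105 sm105 = true := by
  decide +kernel

def sm107 : List (ℕ × ℕ) := [
  (1, 80), (2, 17), (3, 88), (4, 28), (5, 45), (6, 104), (7, 96), (8, 55), (9, 99), (10, 73),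
  (11, 93), (12, 76), (13, 79), (14, 70), (15, 90), (16, 61), (18, 56), (19, 106), (20, 21),
  (22, 57), (23, 29), (24, 95), (25, 77), (26, 103), (27, 84), (30, 100), (31, 44), (32, 35),
  (33, 64), (34, 82), (36, 97), (37, 91), (38, 48), (39, 51), (40, 59), (41, 46), (42, 81),
  (43, 50), (47, 89), (49, 65), (52, 75), (53, 102), (54, 87), (58, 60), (62, 83), (63, 74),
  (66, 92), (67, 101), (68, 72), (69, 98), (71, 85), (78, 105), (86, 94)]

theorem sm107_ok : checkSmall 107 sm107 = true := by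
  decide +kernel

def sm109 : List (ℕ × ℕ) := [
  (1, 73), (2, 78), (3, 44), (4, 17), (5, 87), (6, 69), (7, 60), (8, 12), (9, 35), (10, 95),
  (11, 50), (13, 90), (14, 71), (15, 22), (16, 67), (18, 66), (19, 36), (20, 98), (21, 32),
  (23, 72), (24, 91), (25, 99), (26, 81), (27, 29), (28, 34), (30, 64), (31, 96), (33, 102),
  (37, 84), (38, 61), (39, 47), (40, 41), (42, 70), (43, 48), (45, 65), (46, 62), (49, 74),
  (51, 101), (52, 82), (53, 63), (54, 97), (55, 58), (56, 77), (57, 93), (59, 104), (68, 106),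
  (75, 94), (76, 85), (79, 108), (80, 92), (83, 105), (86, 100), (88, 103), (89, 107)]

theorem sm109_ok : checkSmall 109 sm109 = true := by
  decide +kernel

def sm111 : List (ℕ × ℕ) := [
  (1, 70), (2, 102), (3, 27), (4, 37), (5, 24), (6, 10), (7, 82), (8, 62), (9, 90), (11, 54),
  (12, 13), (14, 109), (15, 92), (16, 19), (17, 97), (18, 40), (20, 55), (21, 85), (22, 45),
  (23, 72), (25, 110), (26, 64), (28, 57), (29, 47), (30, 39), (31, 103), (32, 88), (33, 53),
  (34, 74), (35, 93), (36, 77), (38, 63), (41, 106), (42, 101), (43, 75), (44, 107), (46, 96),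
  (48, 61), (49, 100), (50, 95), (51, 65), (52, 80), (56, 73), (58, 66), (59, 71), (60, 104),
  (67, 94), (68, 105), (69, 79), (76, 78), (81, 86), (83, 89), (84, 99), (87, 108), (91, 98)]

theorem sm111_ok : checkSmall 111 sm111 = true := by
  decide +kernel

def sm113 : List (ℕ × ℕ) := [
  (1, 103), (2, 75), (3, 95), (4, 102), (5, 83), (6, 45), (7, 9), (8, 74), (10, 65), (11, 30),
  (12, 77), (13, 37), (14, 66), (15, 42), (16, 46), (17, 94), (18, 47), (19, 44), (20, 99),
  (21, 53), (22, 72), (23, 61), (24, 69), (25, 51), (26, 27), (28, 97), (29, 32), (31, 101),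
  (33, 93), (34, 88), (35, 43), (36, 67), (38, 80), (39, 57), (40, 112), (41, 54), (48, 105),
  (49, 71), (50, 96), (52, 89), (55, 60), (56, 68), (58, 109), (59, 76), (62, 111), (63, 79),
  (64, 87), (70, 90), (73, 106), (78, 84), (81, 91), (82, 110), (85, 92), (86, 100), (98, 107),
  (104, 108)]

theorem sm113_ok : checkSmall 113 sm113 = true := by
  decide +kernel

def sm115 : List (ℕ × ℕ) := [
  (1, 53), (2, 30), (3, 85), (4, 59), (5, 102), (6, 14), (7, 17), (8, 69), (9, 93), (10, 60),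
  (11, 97), (12, 78), (13, 87), (15, 107), (16, 51), (18, 96), (19, 20), (21, 27), (22, 61),
  (23, 26), (24, 71), (25, 84), (28, 109), (29, 72), (31, 110), (32, 44), (33, 58), (34, 91),
  (35, 88), (36, 56), (37, 83), (38, 42), (39, 106), (40, 47), (41, 111), (43, 75), (45, 54),
  (46, 65), (48, 86), (49, 64), (50, 74), (52, 103), (55, 95), (57, 101), (62, 67), (63, 80),
  (66, 108), (68, 89), (70, 92), (73, 99), (76, 90), (77, 104), (79, 81), (82, 112), (94, 105),
  (98, 114), (100, 113)]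

theorem sm115_ok : checkSmall 115 sm115 = true := by
  decide +kernel

def sm117 : List (ℕ × ℕ) := [
  (1, 35), (2, 78), (3, 40), (4, 58), (5, 97), (6, 68), (7, 93), (8, 106), (9, 80), (10, 48),
  (11, 26), (12, 56), (13, 66), (14, 34), (15, 114), (16, 83), (17, 86), (18, 23), (19, 91),
  (20, 36), (21, 87), (22, 33), (24, 46), (25, 102), (27, 109), (28, 115), (29, 32), (30, 89),
  (31, 44), (37, 76), (38, 59), (39, 72), (41, 50), (42, 98), (43, 47), (45, 105), (49, 81),
  (51, 116), (52, 94), (53, 82), (54, 101), (55, 104), (57, 67), (60, 61), (62, 85), (63, 70),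
  (64, 100), (65, 92), (69, 112), (71, 77), (73, 90), (74, 88), (75, 99), (79, 107), (84, 110),
  (95, 103), (96, 108), (111, 113)]

theorem sm117_ok : checkSmall 117 sm117 = true := by
  decide +kernel

def sm127 : List (ℕ × ℕ) := [
  (1, 77), (2, 114), (3, 6), (4, 12), (5, 98), (7, 40), (8, 71), (9, 31), (10, 83), (11, 86),
  (13, 96), (14, 92), (15, 61), (16, 124), (17, 109), (18, 35), (19, 50), (20, 78), (21, 37),
  (22, 52), (23, 112), (24, 25), (26, 87), (27, 54), (28, 123), (29, 79), (30, 36), (32, 120),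
  (33, 53), (34, 89), (38, 91), (39, 121), (41, 59), (42, 46), (43, 99), (44, 104), (45, 73),
  (47, 68), (48, 113), (49, 108), (51, 93), (55, 69), (56, 126), (57, 105), (58, 67), (60, 70),
  (62, 88), (63, 74), (64, 111), (65, 90), (66, 102), (72, 101), (75, 115), (76, 119),
  (80, 85), (81, 118), (82, 106), (84, 125), (94, 117), (95, 97), (100, 107), (103, 116),
  (110, 122)]

theorem sm127_ok : checkSmall 127 sm127 = true := by
  decide +kernel

def sm133 : List (ℕ × ℕ) := [
  (1, 73), (2, 25), (3, 99), (4, 68), (5, 26), (6, 120), (7, 112), (8, 46), (9, 41), (10, 67),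
  (11, 17), (12, 56), (13, 124), (14, 66), (15, 92), (16, 100), (18, 105), (19, 94), (20, 29),
  (21, 115), (22, 36), (23, 130), (24, 116), (27, 81), (28, 101), (30, 59), (31, 44),
  (32, 122), (33, 64), (34, 117), (35, 90), (37, 72), (38, 45), (39, 40), (42, 57), (43, 106),
  (47, 98), (48, 96), (49, 82), (50, 97), (51, 69), (52, 62), (53, 127), (54, 88), (55, 79),
  (58, 123), (60, 113), (61, 128), (63, 108), (65, 107), (70, 132), (71, 75), (74, 104),
  (76, 93), (77, 102), (78, 118), (80, 83), (84, 111), (85, 121), (86, 91), (87, 89),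
  (95, 103), (109, 129), (110, 126), (114, 125), (119, 131)]

theorem sm133_ok : checkSmall 133 sm133 = true := by
  decide +kernel

def sm137 : List (ℕ × ℕ) := [
  (1, 72), (2, 89), (3, 135), (4, 6), (5, 131), (7, 132), (8, 122), (9, 53), (10, 82),
  (11, 109), (12, 94), (13, 56), (14, 70), (15, 126), (16, 69), (17, 42), (18, 85), (19, 124),
  (20, 99), (21, 106), (22, 44), (23, 111), (24, 41), (25, 79), (26, 83), (27, 127), (28, 74),
  (29, 50), (30, 133), (31, 95), (32, 128), (33, 81), (34, 65), (35, 55), (36, 46), (37, 114),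
  (38, 80), (39, 113), (40, 118), (43, 78), (45, 52), (47, 98), (48, 75), (49, 68), (51, 120),
  (54, 57), (58, 103), (59, 97), (60, 121), (61, 136), (62, 86), (63, 110), (64, 104),
  (66, 96), (67, 100), (71, 84), (73, 77), (76, 112), (87, 93), (88, 117), (90, 105), (91, 92),
  (101, 119), (102, 130), (107, 123), (108, 116), (115, 129), (125, 134)]

theorem sm137_ok : checkSmall 137 sm137 = true := by
  decide +kernel

def sm139 : List (ℕ × ℕ) := [
  (1, 9), (2, 79), (3, 125), (4, 107), (5, 118), (6, 92), (7, 59), (8, 41), (10, 73), (11, 94),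
  (12, 35), (13, 64), (14, 34), (15, 49), (16, 62), (17, 102), (18, 108), (19, 137), (20, 121),
  (21, 46), (22, 52), (23, 68), (24, 27), (25, 129), (26, 104), (28, 112), (29, 71), (30, 97),
  (31, 55), (32, 132), (33, 135), (36, 106), (37, 126), (38, 65), (39, 114), (40, 54),
  (42, 90), (43, 74), (44, 103), (45, 116), (47, 66), (48, 61), (50, 110), (51, 80), (53, 93),
  (56, 138), (57, 98), (58, 123), (60, 88), (63, 70), (67, 133), (69, 101), (72, 130),
  (75, 76), (77, 120), (78, 89), (81, 128), (82, 84), (83, 127), (85, 95), (86, 91), (87, 105),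
  (96, 100), (99, 115), (109, 131), (111, 117), (113, 122), (119, 134), (124, 136)]

theorem sm139_ok : checkSmall 139 sm139 = true := by
  decide +kernel

end Pool.Agent.Helper19_Horton
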