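import Pool.Agent.Helper19_Horton.Core

/-!
A verified checker for one-parameter families of strong starters made of linear runs.
-/

namespace Pool.Agent.Helper19_Horton

/-- arithmetic progression family: values `P*m + Q + s*v` for `v < L*m + G`. -/
structure AP where
  P : ℕ
  Q : ℕ
  s : ℕ
  L : ℕ
  G : ℕ

def AP.before (A B : AP) : Bool :=
  Nat.ble (A.P + A.s * A.L) B.P && Nat.blt (A.Q + A.s * (A.G - 1)) B.Q

def AP.res (A B : AP) (g : ℕ) : Bool :=
  Nat.beq (A.P % g) (B.P % g) && !(Nat.beq (A.Q % g) (B.Q % g))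

def AP.disj (A B : AP) : Bool :=
  A.before B || B.before A || AP.res A B (Nat.gcd A.s B.s)

theorem AP.before_spec {A B : AP} (h : A.before B = true) (m v w : ℕ)
    (hv : v < A.L * m + A.G) :
    A.P * m + A.Q + A.s * v < B.P * m + B.Q + B.s * w := by
  unfold AP.before at h
  rw [Bool.and_eq_true, Nat.ble_eq, Nat.blt_eq] at h
  obtain ⟨h1, h2⟩ := h
  have h3 : v ≤ A.L * m + (A.G - 1) := by omega
  have h4 : A.s * v ≤ A.s * (A.L * m + (A.G - 1)) := Nat.mul_le_mul_left _ h3
  have h5 : A.s * (A.L * m + (A.G - 1)) = (A.s * A.L) * m + A.s * (A.G - 1) := by ring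
  have h6 : (A.P + A.s * A.L) * m ≤ B.P * m := Nat.mul_le_mul_right _ h1
  have h7 : (A.P + A.s * A.L) * m = A.P * m + (A.s * A.L) * m := by ring
  have h8 : 0 ≤ B.s * w := Nat.zero_le _
  omega

theorem AP.disj_spec {A B : AP} (h : A.disj B = true) (m v w : ℕ)
    (hv : v < A.L * m + A.G) (hw : w < B.L * m + B.G) :
    A.P * m + A.Q + A.s * v ≠ B.P * m + B.Q + B.s * w := by
  unfold AP.disj at h
  rw [Bool.or_eq_true, Bool.or_eq_true] at h
  rcases h with (h | h) | h
  · exact (AP.before_spec h m v w hv).ne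
  · exact (AP.before_spec h m w v hw).ne'
  · intro heq
    unfold AP.res at h
    rw [Bool.and_eq_true, Nat.beq_eq, Bool.not_eq_true', ← Bool.not_eq_true, Nat.beq_eq] at h
    obtain ⟨h1, h2⟩ := h
    apply h2
    set g := Nat.gcd A.s B.s with hg
    have hA : g ∣ A.s := Nat.gcd_dvd_left _ _
    have hB : g ∣ B.s := Nat.gcd_dvd_right _ _
    have e1 : A.s * v ≡ 0 [MOD g] := (Nat.modEq_zero_iff_dvd).mpr (Dvd.dvd.mul_right hA v)
    have e2 : B.s * w ≡ 0 [MOD g] := (Nat.modEq_zero_iff_dvd).mpr (Dvd.dvd.mul_right hB w)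
    have e3 : A.P * m ≡ B.P * m [MOD g] := Nat.ModEq.mul_right m h1
    have e4 : A.P * m + A.Q + A.s * v ≡ A.P * m + A.Q + 0 [MOD g] := Nat.ModEq.add_left _ e1
    have e5 : B.P * m + B.Q + B.s * w ≡ B.P * m + B.Q + 0 [MOD g] := Nat.ModEq.add_left _ e2
    have e7 : A.P * m + A.Q + A.s * v ≡ B.P * m + B.Q + B.s * w [MOD g] := by rw [heq]
    have e6 : A.P * m + A.Q ≡ B.P * m + B.Q [MOD g] := by
      have := e4.symm.trans (e7.trans e5)
      simpa using this
    exact Nat.ModEq.add_left_cancel e3 e6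

/-- pairwise disjointness -/
def pw : List AP → Bool
  | [] => true
  | a :: l => l.all (fun b => a.disj b) && pw l

theorem pw_spec : ∀ {l : List AP}, pw l = true → ∀ i j (hi : i < l.length) (hj : j < l.length),
    i < j → (l[i]).disj (l[j]) = true
  | [], _, i, _, hi, _, _ => absurd hi (by simp)
  | a :: l, h, i, j, hi, hj, hij => by
    unfold pw at h
    rw [Bool.and_eq_true, List.all_eq_true] at h
    rcases j with _ | j
    · omega
    rcases i with _ | i
    · simp only [List.getElem_cons_zero, List.getElem_cons_succ]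
      exact h.1 _ (List.getElem_mem _)
    · simp only [List.getElem_cons_succ]
      exact pw_spec h.2 i j _ _ (by omega)

/-- linear form `P*m + Q + s*u` -/
structure Form where
  P : ℤ
  Q : ℤ
  s : ℤ

def Form.eval (f : Form) (m u : ℕ) : ℤ := f.P * m + f.Q + f.s * u

/-- normal form on `u < L*m+G` -/
def Form.toAP (f : Form) (L G : ℕ) : AP :=
  if 0 ≤ f.s then ⟨f.P.toNat, f.Q.toNat, f.s.toNat, L, G⟩
  else ⟨(f.P + f.s * L).toNat, (f.Q + f.s * ((G : ℤ) - 1)).toNat, (-f.s).toNat, L, G⟩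

def Form.ok (f : Form) (L G : ℕ) : Bool :=
  if 0 ≤ f.s then decide (0 ≤ f.P) && decide (0 ≤ f.Q)
  else decide (0 ≤ f.P + f.s * L) && decide (0 ≤ f.Q + f.s * ((G : ℤ) - 1))

theorem Form.toAP_L (f : Form) (L G : ℕ) : (f.toAP L G).L = L := by
  unfold Form.toAP; split_ifs <;> rfl

theorem Form.toAP_G (f : Form) (L G : ℕ) : (f.toAP L G).G = G := by
  unfold Form.toAP; split_ifs <;> rfl

theorem Form.toAP_spec (f : Form) (L G : ℕ) (hok : f.ok L G = true) (m u : ℕ)
    (hu : u < L * m + G) :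
    ∃ v, v < L * m + G ∧
      f.eval m u = (((f.toAP L G).P * m + (f.toAP L G).Q + (f.toAP L G).s * v : ℕ) : ℤ) := by
  unfold Form.ok at hok
  unfold Form.toAP Form.eval
  split_ifs at hok ⊢ with hs
  · rw [Bool.and_eq_true, decide_eq_true_eq, decide_eq_true_eq] at hok
    refine ⟨u, hu, ?_⟩
    push_cast
    rw [Int.toNat_of_nonneg hok.1, Int.toNat_of_nonneg hok.2, Int.toNat_of_nonneg hs]
  · rw [Bool.and_eq_true, decide_eq_true_eq, decide_eq_true_eq] at hok
    refine ⟨L * m + G - 1 - u, by omega, ?_⟩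
    push_cast
    have h1 : ((L * m + G - 1 - u : ℕ) : ℤ) = (L : ℤ) * m + G - 1 - u := by
      have : u + 1 ≤ L * m + G := hu
      omega
    rw [Int.toNat_of_nonneg hok.1, Int.toNat_of_nonneg hok.2,
      Int.toNat_of_nonneg (by omega : 0 ≤ -f.s), h1]
    ring

structure Item where
  xP : ℤ
  xQ : ℤ
  xs : ℤ
  yP : ℤ
  yQ : ℤ
  ys : ℤ
  L : ℕ
  G : ℕ

def Item.fx (t : Item) : Form := ⟨t.xP, t.xQ, t.xs⟩
def Item.fy (t : Item) : Form := ⟨t.yP, t.yQ, t.ys⟩
def Item.fd (t : Item) : Form := ⟨t.yP - t.xP, t.yQ - t.xQ, t.ys - t.xs⟩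
def Item.fs (t : Item) : Form := ⟨t.xP + t.yP, t.xQ + t.yQ, t.xs + t.ys⟩
def Item.fe (NP NQ : ℕ) (t : Item) : Form :=
  ⟨NP - (t.yP - t.xP), NQ - (t.yQ - t.xQ), t.xs - t.ys⟩
def Item.ft (NP NQ : ℕ) (t : Item) : Form := ⟨t.xP + t.yP + NP, t.xQ + t.yQ + NQ, t.xs + t.ys⟩

def Item.ax (t : Item) : AP := t.fx.toAP t.L t.G
def Item.ay (t : Item) : AP := t.fy.toAP t.L t.G
def Item.ad (t : Item) : AP := t.fd.toAP t.L t.G
def Item.as (t : Item) : AP := t.fs.toAP t.L t.G
def Item.ae (NP NQ : ℕ) (t : Item) : AP := (t.fe NP NQ).toAP t.L t.G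
def Item.at (NP NQ : ℕ) (t : Item) : AP := (t.ft NP NQ).toAP t.L t.G

def Item.good (NP NQ : ℕ) (t : Item) : Bool :=
  t.fx.ok t.L t.G && t.fy.ok t.L t.G && t.fd.ok t.L t.G && t.fs.ok t.L t.G &&
  (t.fe NP NQ).ok t.L t.G && (t.ft NP NQ).ok t.L t.G &&
  Nat.blt 0 t.ax.Q && Nat.blt 0 t.ad.Q && t.ay.before ⟨NP, NQ, 0, 0, 1⟩ &&
  t.as.disj ⟨NP, NQ, 0, 0, 1⟩ &&
  ((Nat.beq t.L 0 && Nat.beq t.G 1) ||
    (decide (t.xs ≠ 0) && decide (t.ys ≠ 0) && decide (t.ys ≠ t.xs) && decide (t.xs + t.ys ≠ 0)))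

def cross (A B : List AP) : Bool := A.all (fun a => B.all (fun b => a.disj b))

theorem cross_spec {A B : List AP} (h : cross A B = true) (i j : ℕ) (hi : i < A.length)
    (hj : j < B.length) : (A[i]).disj (B[j]) = true := by
  unfold cross at h
  rw [List.all_eq_true] at h
  have := h _ (List.getElem_mem hi)
  rw [List.all_eq_true] at this
  exact this _ (List.getElem_mem hj)

def check (NP NQ : ℕ) (its : List Item) : Bool :=
  its.all (fun t => t.good NP NQ) &&
  Nat.beq (2 * (its.map (fun t => t.L)).sum) NP &&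
  Nat.beq (2 * (its.map (fun t => t.G)).sum + 1) NQ &&
  pw (its.map Item.ax) && pw (its.map Item.ay) && cross (its.map Item.ax) (its.map Item.ay) &&
  pw (its.map Item.ad) && cross (its.map Item.ad) (its.map (Item.ae NP NQ)) &&
  pw (its.map Item.as) && cross (its.map Item.as) (its.map (Item.at NP NQ))

theorem pw_map_ne {its : List Item} (F : Item → Form)
    (hok : ∀ t ∈ its, (F t).ok t.L t.G = true)
    (h : pw (its.map (fun t => (F t).toAP t.L t.G)) = true) (m : ℕ)
    (i j : Fin its.length) (hij : i ≠ j) (u v : ℕ)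
    (hu : u < (its[i]).L * m + (its[i]).G) (hv : v < (its[j]).L * m + (its[j]).G) :
    (F its[i]).eval m u ≠ (F its[j]).eval m v := by
  obtain ⟨u', hu', hu''⟩ := (F its[i]).toAP_spec _ _ (hok _ (List.getElem_mem _)) m u hu
  obtain ⟨v', hv', hv''⟩ := (F its[j]).toAP_spec _ _ (hok _ (List.getElem_mem _)) m v hv
  rw [hu'', hv'']
  intro heq
  have heq' := Int.ofNat_inj.mp heq
  rcases lt_or_gt_of_ne hij with hlt | hlt
  · have := pw_spec h i j (by simp) (by simp) hlt
    rw [List.getElem_map, List.getElem_map] at this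
    refine AP.disj_spec this m u' v' ?_ ?_ heq'
    · rw [Form.toAP_L, Form.toAP_G]; exact hu'
    · rw [Form.toAP_L, Form.toAP_G]; exact hv'
  · have := pw_spec h j i (by simp) (by simp) hlt
    rw [List.getElem_map, List.getElem_map] at this
    refine AP.disj_spec this m v' u' ?_ ?_ heq'.symm
    · rw [Form.toAP_L, Form.toAP_G]; exact hv'
    · rw [Form.toAP_L, Form.toAP_G]; exact hu'

theorem cross_map_ne {its : List Item} (F F' : Item → Form)
    (hok : ∀ t ∈ its, (F t).ok t.L t.G = true) (hok' : ∀ t ∈ its, (F' t).ok t.L t.G = true)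
    (h : cross (its.map (fun t => (F t).toAP t.L t.G))
      (its.map (fun t => (F' t).toAP t.L t.G)) = true) (m : ℕ)
    (i j : Fin its.length) (u v : ℕ)
    (hu : u < (its[i]).L * m + (its[i]).G) (hv : v < (its[j]).L * m + (its[j]).G) :
    (F its[i]).eval m u ≠ (F' its[j]).eval m v := by
  obtain ⟨u', hu', hu''⟩ := (F its[i]).toAP_spec _ _ (hok _ (List.getElem_mem _)) m u hu
  obtain ⟨v', hv', hv''⟩ := (F' its[j]).toAP_spec _ _ (hok' _ (List.getElem_mem _)) m v hv
  rw [hu'', hv'']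
  intro heq
  have heq' := Int.ofNat_inj.mp heq
  have := cross_spec h i j (by simp) (by simp)
  rw [List.getElem_map, List.getElem_map] at this
  refine AP.disj_spec this m u' v' ?_ ?_ heq'
  · rw [Form.toAP_L, Form.toAP_G]; exact hu'
  · rw [Form.toAP_L, Form.toAP_G]; exact hv'

theorem Form.eval_inj (f : Form) (hs : f.s ≠ 0) (m u v : ℕ) (h : f.eval m u = f.eval m v) :
    u = v := by
  unfold Form.eval at h
  have : f.s * u = f.s * v := by omega
  have := mul_left_cancel₀ hs this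
  exact_mod_cast this

theorem check_sound {NP NQ : ℕ} {its : List Item} (h : check NP NQ its = true) (m : ℕ) :
    HasStrongStarter (NP * m + NQ) := by
  unfold check at h
  simp only [Bool.and_eq_true, List.all_eq_true, Nat.beq_eq] at h
  obtain ⟨⟨⟨⟨⟨⟨⟨⟨⟨hgood, hL⟩, hG⟩, hX⟩, hY⟩, hXY⟩, hD⟩, hDE⟩, hS⟩, hST⟩ := h
  have hgood' : ∀ t ∈ its, (t.fx.ok t.L t.G = true ∧ t.fy.ok t.L t.G = true ∧
      t.fd.ok t.L t.G = true ∧ t.fs.ok t.L t.G = true ∧ (t.fe NP NQ).ok t.L t.G = true ∧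
      (t.ft NP NQ).ok t.L t.G = true) ∧ 0 < t.ax.Q ∧ 0 < t.ad.Q ∧
      t.ay.before ⟨NP, NQ, 0, 0, 1⟩ = true ∧ t.as.disj ⟨NP, NQ, 0, 0, 1⟩ = true ∧
      ((t.L = 0 ∧ t.G = 1) ∨ (t.xs ≠ 0 ∧ t.ys ≠ 0 ∧ t.ys ≠ t.xs ∧ t.xs + t.ys ≠ 0)) := by
    intro t ht
    have := hgood t ht
    unfold Item.good at this
    simp only [Bool.and_eq_true, Bool.or_eq_true, Nat.beq_eq, Nat.blt_eq,
      decide_eq_true_eq] at this
    tauto
  let ι := Σ i : Fin its.length, Fin ((its[i]).L * m + (its[i]).G)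
  let x : ι → ℤ := fun a => (its[a.1]).fx.eval m a.2
  let y : ι → ℤ := fun a => (its[a.1]).fy.eval m a.2
  have hsub : ∀ a : ι, y a - x a = (its[a.1]).fd.eval m a.2 := by
    intro a
    show (its[a.1]).fy.eval m a.2 - (its[a.1]).fx.eval m a.2 = _
    unfold Form.eval Item.fd Item.fx Item.fy
    simp only []
    ring
  have hadd : ∀ a : ι, x a + y a = (its[a.1]).fs.eval m a.2 := by
    intro a
    show (its[a.1]).fx.eval m a.2 + (its[a.1]).fy.eval m a.2 = _
    unfold Form.eval Item.fs Item.fx Item.fy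
    simp only []
    ring
  have hsube : ∀ a : ι, ((NP * m + NQ : ℕ) : ℤ) - (y a - x a) =
      ((its[a.1]).fe NP NQ).eval m a.2 := by
    intro a
    show ((NP * m + NQ : ℕ) : ℤ) - ((its[a.1]).fy.eval m a.2 - (its[a.1]).fx.eval m a.2) = _
    unfold Form.eval Item.fe Item.fx Item.fy
    simp only []
    push_cast
    ring
  have haddt : ∀ a : ι, x a + y a + ((NP * m + NQ : ℕ) : ℤ) =
      ((its[a.1]).ft NP NQ).eval m a.2 := by
    intro a
    show (its[a.1]).fx.eval m a.2 + (its[a.1]).fy.eval m a.2 + ((NP * m + NQ : ℕ) : ℤ) = _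
    unfold Form.eval Item.ft Item.fx Item.fy
    simp only []
    push_cast
    ring
  have hmem : ∀ a : ι, its[a.1] ∈ its := fun a => List.getElem_mem _
  -- general injectivity
  have inj : ∀ (F : Item → Form), (∀ t ∈ its, (F t).ok t.L t.G = true) →
      (∀ t ∈ its, (t.L = 0 ∧ t.G = 1) ∨ (F t).s ≠ 0) →
      pw (its.map (fun t => (F t).toAP t.L t.G)) = true →
      ∀ a b : ι, (F its[a.1]).eval m a.2 = (F its[b.1]).eval m b.2 → a = b := by
    intro F hok hs hp a b hab
    by_cases hab1 : a.1 = b.1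
    · obtain ⟨a1, a2⟩ := a
      obtain ⟨b1, b2⟩ := b
      simp only at hab1
      subst hab1
      simp only at hab
      rcases hs _ (hmem ⟨a1, a2⟩) with h0 | h0
      · have ha := a2.2
        have hb := b2.2
        simp only at h0
        have e : (its[a1]).L * m + (its[a1]).G = 1 := by rw [h0.1, h0.2]; ring
        have : a2 = b2 := by
          apply Fin.ext; omega
        rw [this]
      · have : (a2 : ℕ) = b2 := Form.eval_inj _ h0 m _ _ hab
        have : a2 = b2 := Fin.ext this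
        rw [this]
    · exact absurd hab (pw_map_ne F hok hp m a.1 b.1 hab1 _ _ a.2.2 b.2.2)
  have hpos : ∀ (f : Form) (L G : ℕ), f.ok L G = true → 0 < (f.toAP L G).Q → ∀ u, u < L * m + G →
      0 < f.eval m u := by
    intro f L G hok hq u hu
    obtain ⟨v, _, hv⟩ := f.toAP_spec L G hok m u hu
    rw [hv]
    positivity
  apply hasStrongStarter_of_int (ι := ι) x y
  · -- cardinality
    have h1 : Fintype.card ι = (its.map (fun t => t.L * m + t.G)).sum := by
      simp only [ι, Fintype.card_sigma, Fintype.card_fin]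
      exact Fin.sum_univ_fun_getElem its (fun t => t.L * m + t.G)
    have h2 : (its.map (fun t => t.L * m + t.G)).sum =
        (its.map (fun t => t.L)).sum * m + (its.map (fun t => t.G)).sum := by
      rw [List.sum_map_add, List.sum_map_mul_right]
    rw [h1, h2, ← hL, ← hG]
    ring
  · intro a
    obtain ⟨⟨h1, -⟩, h2, -⟩ := hgood' _ (hmem a)
    exact hpos _ _ _ h1 h2 _ a.2.2
  · intro a
    obtain ⟨⟨-, -, h1, -⟩, -, h2, -⟩ := hgood' _ (hmem a)
    have := hpos _ _ _ h1 h2 _ a.2.2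
    rw [← hsub a] at this
    omega
  · intro a
    obtain ⟨⟨-, h1, -⟩, -, -, h2, -⟩ := hgood' _ (hmem a)
    obtain ⟨v, hv1, hv⟩ := (its[a.1]).fy.toAP_spec _ _ h1 m a.2 a.2.2
    show (its[a.1]).fy.eval m a.2 < _
    rw [hv]
    have := AP.before_spec h2 m v 0 (by rw [Item.ay, Form.toAP_L, Form.toAP_G]; exact hv1)
    simp only [Item.ay] at this
    have h3 : (its[a.1].fy.toAP its[a.1].L its[a.1].G).P * m +
      (its[a.1].fy.toAP its[a.1].L its[a.1].G).Q +
      (its[a.1].fy.toAP its[a.1].L its[a.1].G).s * v < NP * m + NQ := by omega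
    exact_mod_cast h3
  · intro a b hab
    exact inj Item.fx (fun t ht => (hgood' t ht).1.1) (fun t ht => by
      have := (hgood' t ht).2.2.2.2.2
      rcases this with h | h
      · exact Or.inl h
      · exact Or.inr h.1) hX a b hab
  · intro a b hab
    exact inj Item.fy (fun t ht => (hgood' t ht).1.2.1) (fun t ht => by
      have := (hgood' t ht).2.2.2.2.2
      rcases this with h | h
      · exact Or.inl h
      · exact Or.inr h.2.1) hY a b hab
  · intro a b
    exact cross_map_ne Item.fx Item.fy (fun t ht => (hgood' t ht).1.1)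
      (fun t ht => (hgood' t ht).1.2.1) hXY m a.1 b.1 _ _ a.2.2 b.2.2
  · intro a b hab
    rw [hsub, hsub] at hab
    exact inj Item.fd (fun t ht => (hgood' t ht).1.2.2.1) (fun t ht => by
      have := (hgood' t ht).2.2.2.2.2
      rcases this with h | h
      · exact Or.inl h
      · exact Or.inr (sub_ne_zero.mpr h.2.2.1)) hD a b hab
  · intro a b hab
    have h1 : y a - x a = ((NP * m + NQ : ℕ) : ℤ) - (y b - x b) := by omega
    rw [hsub a, hsube b] at h1
    exact cross_map_ne Item.fd (Item.fe NP NQ) (fun t ht => (hgood' t ht).1.2.2.1)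
      (fun t ht => (hgood' t ht).1.2.2.2.2.1) hDE m a.1 b.1 _ _ a.2.2 b.2.2 h1
  · intro a b hab
    rw [hadd, hadd] at hab
    exact inj Item.fs (fun t ht => (hgood' t ht).1.2.2.2.1) (fun t ht => by
      have := (hgood' t ht).2.2.2.2.2
      rcases this with h | h
      · exact Or.inl h
      · exact Or.inr h.2.2.2) hS a b hab
  · intro a b hab
    rw [haddt b, hadd a] at hab
    exact cross_map_ne Item.fs (Item.ft NP NQ) (fun t ht => (hgood' t ht).1.2.2.2.1)
      (fun t ht => (hgood' t ht).1.2.2.2.2.2) hST m a.1 b.1 _ _ a.2.2 b.2.2 hab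
  · intro a hab
    rw [hadd a] at hab
    obtain ⟨⟨-, -, -, h1, -⟩, -, -, -, h2, -⟩ := hgood' _ (hmem a)
    obtain ⟨v, hv1, hv⟩ := (its[a.1]).fs.toAP_spec _ _ h1 m a.2 a.2.2
    rw [hv] at hab
    have := AP.disj_spec h2 m v 0 (by rw [Item.as, Form.toAP_L, Form.toAP_G]; exact hv1)
      (by simp)
    apply this
    simp only [Item.as]
    have h3 := Int.ofNat_inj.mp hab
    omega

end Pool.Agent.Helper19_Horton
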